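import Pool.Agent.Lib.MP_09cbbd_vw.Blk

/-!
# Integrals over cells as integrals over blocks
-/

set_option autoImplicit false

namespace Pool.Agent.Exg

open MeasureTheory Finset Pool.Agent.StableGas

section gen

variable {Γ Γ' U E : Type} [MeasurableSpace E]

/-- The configuration of the cells given by the configuration of the blocks. -/
def unb (e : Γ ≃ Γ' × U) (W : Γ' → U → E) : Γ → E := fun i => W (e i).1 (e i).2

/-- The cells of a finite set of blocks. -/
def cells [DecidableEq Γ] [Fintype U] (e : Γ ≃ Γ' × U) (A : Finset Γ') : Finset Γ :=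
  A.biUnion fun p => univ.image fun u => e.symm (p, u)

theorem mem_cells [DecidableEq Γ] [Fintype U] (e : Γ ≃ Γ' × U) {A : Finset Γ'} {i : Γ} :
    i ∈ cells e A ↔ (e i).1 ∈ A := by
  unfold cells
  simp only [mem_biUnion, mem_image, mem_univ, true_and]
  constructor
  · rintro ⟨p, hp, u, rfl⟩
    rwa [e.apply_symm_apply]
  · intro h
    exact ⟨(e i).1, h, (e i).2, e.symm_apply_apply i⟩

theorem measurable_unb (e : Γ ≃ Γ' × U) : Measurable (unb (E := E) e) := by
  unfold unb
  exact measurable_pi_iff.2 fun i => (measurable_pi_apply _).comp (measurable_pi_apply _)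

/-- The cells of one block. -/
def fibE [DecidableEq Γ] [Fintype U] (e : Γ ≃ Γ' × U) (p : Γ') :
    U ≃ {i // i ∈ (univ : Finset U).image fun u => e.symm (p, u)} where
  toFun := fun u => ⟨e.symm (p, u), mem_image_of_mem _ (mem_univ u)⟩
  invFun := fun i => (e i.1).2
  left_inv := fun u => by simp
  right_inv := fun i => by
    obtain ⟨i, hi⟩ := i
    obtain ⟨u, _, rfl⟩ := mem_image.1 hi
    simp

theorem lm_fib [DecidableEq Γ] [DecidableEq Γ'] [Fintype U] (e : Γ ≃ Γ' × U) (π : Measure E)
    [SigmaFinite π] (p : Γ') (g : (Γ → E) → ENNReal) (W : Γ' → U → E) :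
    lmarginal (fun _ : Γ => π) ((univ : Finset U).image fun u => e.symm (p, u)) g (unb e W) =
      ∫⁻ x : U → E, g (unb e (Function.update W p x)) ∂(Measure.pi fun _ => π) := by
  classical
  unfold lmarginal
  have hmp := measurePreserving_piCongrLeft
    (fun _ : {i // i ∈ (univ : Finset U).image fun u => e.symm (p, u)} => π) (fibE e p)
  rw [← hmp.lintegral_comp_emb (MeasurableEquiv.piCongrLeft _ (fibE e p)).measurableEmbedding]
  refine lintegral_congr fun x => ?_
  congr 1
  funext i
  rw [Function.updateFinset_def]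
  unfold unb
  by_cases hi : i ∈ (univ : Finset U).image fun u => e.symm (p, u)
  · simp only [hi, dif_pos]
    obtain ⟨u, _, rfl⟩ := mem_image.1 hi
    rw [e.apply_symm_apply]
    simp only [Function.update_self]
    exact Equiv.piCongrLeft_apply_apply (fun _ : {i // i ∈ (univ : Finset U).image
      fun u => e.symm (p, u)} => E) (fibE e p) x u
  · simp only [hi, dif_neg, not_false_eq_true]
    have hne : (e i).1 ≠ p := by
      rintro rfl
      exact hi (mem_image.2 ⟨(e i).2, mem_univ _, e.symm_apply_apply i⟩)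
    rw [Function.update_of_ne hne]

/-- Integrals over the cells and integrals over the blocks. -/
theorem lm_block [DecidableEq Γ] [DecidableEq Γ'] [Fintype U] (e : Γ ≃ Γ' × U) (π : Measure E)
    [SigmaFinite π] (A : Finset Γ') {f : (Γ → E) → ENNReal} (hf : Measurable f) :
    ∀ W : Γ' → U → E, lmarginal (fun _ : Γ' => Measure.pi fun _ : U => π) A
      (fun W => f (unb e W)) W = lmarginal (fun _ : Γ => π) (cells e A) f (unb e W) := by
  classical
  induction A using Finset.induction_on with
  | empty =>
    intro W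
    unfold cells
    rw [biUnion_empty, lmarginal_empty, lmarginal_empty]
  | insert p A hp ih =>
    intro W
    have hd : Disjoint ((univ : Finset U).image fun u => e.symm (p, u)) (cells e A) := by
      rw [disjoint_left]
      intro i hi hi'
      obtain ⟨u, _, rfl⟩ := mem_image.1 hi
      rw [mem_cells, e.apply_symm_apply] at hi'
      exact hp hi'
    have e1 : cells e (insert p A) = (univ.image fun u => e.symm (p, u)) ∪ cells e A := by
      unfold cells
      rw [biUnion_insert]
    have h1 := lmarginal_insert (μ := fun _ : Γ' => Measure.pi fun _ : U => π)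
      (fun W : Γ' → U → E => f (unb e W)) (hf.comp (measurable_unb e)) hp W
    rw [e1, lmarginal_union _ f hf hd, lm_fib e π p]
    exact h1.trans (lintegral_congr fun x => ih _)

end gen

/-! ### Blocks of `Z^d` -/

section Zd

variable {d : ℕ}

/-- Coordinates in the blocks of side `s`. -/
def blkE (d : ℕ) {s : ℕ} (hs : 1 ≤ s) : Zd d ≃ Zd d × (Fin d → Fin s) where
  toFun := fun i => (fun k => i k / s, fun k => ⟨(i k % s).toNat, by
    have h1 : (0 : ℤ) < s := by exact_mod_cast hs
    have h2 := Int.emod_lt_of_pos (i k) h1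
    have h3 := Int.emod_nonneg (i k) h1.ne'
    omega⟩)
  invFun := fun q k => s * q.1 k + ((q.2 k : ℕ) : ℤ)
  left_inv := fun i => by
    funext k
    have h1 : (0 : ℤ) < s := by exact_mod_cast hs
    have h3 := Int.emod_nonneg (i k) h1.ne'
    simp only
    rw [Int.toNat_of_nonneg h3]
    exact Int.mul_ediv_add_emod (i k) s
  right_inv := fun q => by
    have h1 : (0 : ℤ) < s := by exact_mod_cast hs
    refine Prod.ext ?_ ?_
    · funext k
      have h2 : (((q.2 k : ℕ) : ℤ)) < s := by exact_mod_cast (q.2 k).2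
      simp only
      rw [Int.add_comm, Int.add_mul_ediv_left _ _ h1.ne', Int.ediv_eq_zero_of_lt (by positivity) h2,
        zero_add]
    · funext k
      have h2 : (((q.2 k : ℕ) : ℤ)) < s := by exact_mod_cast (q.2 k).2
      refine Fin.ext ?_
      simp only
      rw [Int.add_comm, Int.add_mul_emod_self_left, Int.emod_eq_of_lt (by positivity) h2,
        Int.toNat_natCast]

theorem blkE_symm_apply {s : ℕ} (hs : 1 ≤ s) (p : Zd d) (u : Fin d → Fin s) (k : Fin d) :
    (blkE d hs).symm (p, u) k = s * p k + ((u k : ℕ) : ℤ) := rfl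

theorem mem_blk_iff {s : ℕ} (hs : 1 ≤ s) {p i : Zd d} :
    i ∈ Vdw.blk s p ↔ (blkE d hs i).1 = p := by
  have h0 : (0 : ℤ) < s := by exact_mod_cast hs
  constructor
  · intro h
    refine Vdw.blk_unique (Vdw.mem_blk.2 fun l => ⟨?_, ?_⟩) h
    · exact Int.mul_ediv_self_le h0.ne'
    · have h1 := Int.lt_ediv_add_one_mul_self (i l) h0
      change i l < (s : ℤ) * (i l / s) + s
      linarith [mul_comm (s : ℤ) (i l / s)]
  · rintro rfl
    refine Vdw.mem_blk.2 fun l => ⟨?_, ?_⟩
    · exact Int.mul_ediv_self_le h0.ne'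
    · have h1 := Int.lt_ediv_add_one_mul_self (i l) h0
      change i l < (s : ℤ) * (i l / s) + s
      linarith [mul_comm (s : ℤ) (i l / s)]

theorem cells_eq {s : ℕ} (hs : 1 ≤ s) (A : Finset (Zd d)) :
    cells (blkE d hs) A = Vdw.lift s A := by
  ext i
  rw [mem_cells, Vdw.mem_lift]
  constructor
  · intro h
    exact ⟨_, h, (mem_blk_iff hs).2 rfl⟩
  · rintro ⟨p, hp, hi⟩
    rw [mem_blk_iff hs] at hi
    rwa [hi]

theorem cells_bx {s : ℕ} (hs : 1 ≤ s) (n : ℕ) :
    cells (blkE d hs) (SquareWell.bx d n) = SquareWell.bx d (s * n) := by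
  rw [cells_eq, Vdw.lift_bx]

end Zd

end Pool.Agent.Exg
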