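import Pool.Agent.Lib.MP_09cbbd_ex.Def
import Pool.Agent.Lib.MP_09cbbd_sw.ModA
import Pool.Agent.Lib.MP_09cbbd_mx.CanC

/-!
# Canonical partition functions of the exclusion gas
-/

set_option autoImplicit false

namespace Pool.Agent.Exg

open MeasureTheory Finset Filter Topology Pool.Agent.SquareWellGas Pool.Agent.ExGas
  Pool.Agent.SquareWell.ModA

/-- The hypotheses on the exclusion set. -/
structure Ex {d : ℕ} (E : Set (Fin d → ℝ)) (a R : ℝ) : Prop where
  ha : 0 < a
  meas : MeasurableSet E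
  neg : ∀ u ∈ E, -u ∈ E
  near : ∀ u : Fin d → ℝ, (∀ k, |u k| < a) → u ∈ E
  far : ∀ u ∈ E, ∀ k, |u k| < R

variable {d : ℕ} {E : Set (Fin d → ℝ)} {a R : ℝ}

/-- The pair factor. -/
noncomputable def ps (E : Set (Fin d → ℝ)) (x y : Fin d → ℝ) : ENNReal :=
  Eᶜ.indicator 1 (x - y)

theorem ps_one {x y : Fin d → ℝ} (h : x - y ∉ E) : ps E x y = 1 := by
  unfold ps
  rw [Set.indicator_of_mem h]
  rfl

theorem ps_zero {x y : Fin d → ℝ} (h : x - y ∈ E) : ps E x y = 0 := by
  unfold ps
  exact Set.indicator_of_notMem (fun h' : x - y ∈ Eᶜ => h' h) _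

theorem ps_ne_zero {x y : Fin d → ℝ} : ps E x y ≠ 0 ↔ x - y ∉ E := by
  constructor
  · intro h h'
    exact h (ps_zero h')
  · intro h
    rw [ps_one h]
    exact one_ne_zero

theorem measurable_ps (hE : MeasurableSet E) :
    Measurable fun p : (Fin d → ℝ) × (Fin d → ℝ) => ps E p.1 p.2 := by
  unfold ps
  exact (measurable_one.indicator hE.compl).comp (measurable_fst.sub measurable_snd)

/-- Configurations. -/
def Cf (E : Set (Fin d → ℝ)) (ι : Type) (A : Set (Fin d → ℝ)) : Set (ι → Fin d → ℝ) :=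
  {x | (∀ i, x i ∈ A) ∧ ∀ i j, i ≠ j → x i - x j ∉ E}

theorem Cf_mono (ι : Type) {A B : Set (Fin d → ℝ)} (h : A ⊆ B) : Cf E ι A ⊆ Cf E ι B :=
  fun _ hx => ⟨fun i => h (hx.1 i), hx.2⟩

theorem measurableSet_Cf (hE : MeasurableSet E) {ι : Type} [Fintype ι] {A : Set (Fin d → ℝ)}
    (hA : MeasurableSet A) : MeasurableSet (Cf E ι A) := by
  have e : Cf E ι A = (⋂ i, {x : ι → Fin d → ℝ | x i ∈ A}) ∩
      ⋂ i, ⋂ j, {x : ι → Fin d → ℝ | i ≠ j → x i - x j ∉ E} := by
    ext x
    simp [Cf]
  rw [e]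
  refine (MeasurableSet.iInter fun i => measurable_pi_apply i hA).inter
    (MeasurableSet.iInter fun i => MeasurableSet.iInter fun j => ?_)
  by_cases h : i = j
  · simp [h]
  · have e2 : {x : ι → Fin d → ℝ | i ≠ j → x i - x j ∉ E} =
        (fun x : ι → Fin d → ℝ => x i - x j) ⁻¹' Eᶜ := by
      ext x
      simp [h]
    rw [e2]
    exact ((measurable_pi_apply i).sub (measurable_pi_apply j)) hE.compl

theorem Gw_eq {ι : Type} [Fintype ι] [DecidableEq ι] (A : Set (Fin d → ℝ)) (x : ι → Fin d → ℝ) :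
    Gw (ps E) (A.indicator 1) x = (Cf E ι A).indicator 1 x := by
  by_cases hx : x ∈ Cf E ι A
  · rw [Set.indicator_of_mem hx]
    unfold Gw Pr
    have h1 : ∏ i, A.indicator (1 : (Fin d → ℝ) → ENNReal) (x i) = 1 :=
      prod_eq_one fun i _ => by rw [Set.indicator_of_mem (hx.1 i)]; rfl
    have h2 : (∏ i, ∏ j, if i = j then (1 : ENNReal) else ps E (x i) (x j)) = 1 := by
      refine prod_eq_one fun i _ => prod_eq_one fun j _ => ?_
      by_cases h : i = j
      · rw [if_pos h]
      · rw [if_neg h, ps_one (hx.2 i j h)]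
    rw [h1, h2, one_mul]
    rfl
  · rw [Set.indicator_of_notMem hx]
    unfold Gw Pr
    by_cases h1 : ∀ i, x i ∈ A
    · have h2 : ∃ i j, i ≠ j ∧ x i - x j ∈ E := by
        by_contra hcon
        push Not at hcon
        exact hx ⟨h1, fun i j hij => hcon i j hij⟩
      obtain ⟨i, j, hij, h3⟩ := h2
      rw [prod_eq_zero (s := univ) (f := fun i => ∏ j, if i = j then (1 : ENNReal) else
        ps E (x i) (x j)) (mem_univ i), mul_zero]
      refine prod_eq_zero (mem_univ j) ?_
      rw [if_neg hij, ps_zero h3]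
    · push Not at h1
      obtain ⟨i, hi⟩ := h1
      rw [prod_eq_zero (mem_univ i), zero_mul]
      exact Set.indicator_of_notMem hi _

theorem lint_Gw (hE : MeasurableSet E) {ι : Type} [Fintype ι] [DecidableEq ι]
    {A : Set (Fin d → ℝ)} (hA : MeasurableSet A) :
    ∫⁻ x : ι → Fin d → ℝ, Gw (ps E) (A.indicator 1) x ∂(Measure.pi fun _ => volume) =
      volume (Cf E ι A) := by
  rw [lintegral_congr (Gw_eq A), lintegral_indicator_one (measurableSet_Cf hE hA)]
  rfl

theorem volume_Cf_le (N : ℕ) (A : Set (Fin d → ℝ)) : volume (Cf E (Fin N) A) ≤ volume A ^ N := by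
  have h : Cf E (Fin N) A ⊆ Set.pi Set.univ fun _ : Fin N => A := fun x hx i _ => hx.1 i
  refine (measure_mono h).trans (le_of_eq ?_)
  rw [volume_pi_pi, prod_const, card_univ, Fintype.card_fin]

theorem volume_Cf_ne {A : Set (Fin d → ℝ)} (hA : volume A ≠ ⊤) (N : ℕ) :
    volume (Cf E (Fin N) A) ≠ ⊤ :=
  ne_top_of_le_ne_top (ENNReal.pow_ne_top hA) (volume_Cf_le N A)

/-- Canonical partition function of a region. -/
noncomputable def cr (E : Set (Fin d → ℝ)) (A : Set (Fin d → ℝ)) (N : ℕ) : ℝ :=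
  ((N.factorial : ℝ))⁻¹ * (volume (Cf E (Fin N) A)).toReal

theorem Z_eq (s : ℝ) (N : ℕ) : Z d E s N = cr E (Box d s) N := rfl

theorem cr_nonneg (A : Set (Fin d → ℝ)) (N : ℕ) : 0 ≤ cr E A N :=
  mul_nonneg (by positivity) ENNReal.toReal_nonneg

theorem cr_mono {A B : Set (Fin d → ℝ)} (h : A ⊆ B) (hB : volume B ≠ ⊤) (N : ℕ) :
    cr E A N ≤ cr E B N := by
  unfold cr
  refine mul_le_mul_of_nonneg_left ?_ (by positivity)
  exact ENNReal.toReal_mono (volume_Cf_ne hB N) (measure_mono (Cf_mono _ h))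

theorem cr_pos_iff {A : Set (Fin d → ℝ)} (hA : volume A ≠ ⊤) (N : ℕ) :
    0 < cr E A N ↔ 0 < volume (Cf E (Fin N) A) := by
  unfold cr
  constructor
  · intro h
    exact (ENNReal.toReal_pos_iff.1 (pos_of_mul_pos_right h (by positivity))).1
  · intro h
    have := ENNReal.toReal_pos h.ne' (volume_Cf_ne hA N)
    positivity

theorem cr_zero (A : Set (Fin d → ℝ)) : cr E A 0 = 1 := by
  have e : Cf E (Fin 0) A = Set.univ := by
    ext x
    simp only [Cf, Set.mem_ofPred_eq, Set.mem_univ, iff_true]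
    exact ⟨fun i => i.elim0, fun i => i.elim0⟩
  have e1 : (Set.univ : Set (Fin 0 → Fin d → ℝ)) = Set.pi Set.univ fun _ : Fin 0 => A := by
    ext x
    simp only [Set.mem_univ, Set.mem_pi, true_iff]
    exact fun i => i.elim0
  unfold cr
  rw [e, e1, volume_pi_pi]
  simp

theorem cr_le {A : Set (Fin d → ℝ)} (hA : volume A ≠ ⊤) (N : ℕ) :
    cr E A N ≤ (volume A).toReal ^ N / N.factorial := by
  unfold cr
  rw [inv_mul_eq_div]
  refine div_le_div_of_nonneg_right ?_ (by positivity)
  rw [← ENNReal.toReal_pow]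
  exact ENNReal.toReal_mono (ENNReal.pow_ne_top hA) (volume_Cf_le N A)

/-- Separated regions. -/
def Apart (E : Set (Fin d → ℝ)) (A B : Set (Fin d → ℝ)) : Prop :=
  Disjoint A B ∧ ∀ x ∈ A, ∀ y ∈ B, x - y ∉ E ∧ y - x ∉ E

theorem JG_apart (hE : MeasurableSet E) {A B : Set (Fin d → ℝ)} (hA : MeasurableSet A)
    (hB : MeasurableSet B) (h : Apart E A B) (k l : ℕ) :
    JG volume (ps E) (Fin k) (Fin l) (A.indicator 1) (B.indicator 1) =
      volume (Cf E (Fin k) A) * volume (Cf E (Fin l) B) := by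
  unfold JG
  have h1 : ∀ u : Fin k → Fin d → ℝ, Gw (ps E) (A.indicator 1) u *
      ∫⁻ v : Fin l → Fin d → ℝ, Gw (ps E) (fun y => B.indicator 1 y * Pu (ps E) u y) v
        ∂(Measure.pi fun _ => volume) =
      Gw (ps E) (A.indicator 1) u * volume (Cf E (Fin l) B) := by
    intro u
    by_cases hu : u ∈ Cf E (Fin k) A
    · congr 1
      rw [← lint_Gw hE hB]
      congr 1
      funext v
      congr 1
      funext y
      by_cases hy : y ∈ B
      · have h2 : Pu (ps E) u y = 1 := by
          unfold Pu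
          refine prod_eq_one fun i _ => ?_
          have h3 := h.2 (u i) (hu.1 i) y hy
          rw [ps_one h3.1, ps_one h3.2, one_mul]
        rw [h2, mul_one]
      · rw [Set.indicator_of_notMem hy, zero_mul]
    · rw [Gw_eq, Set.indicator_of_notMem hu, zero_mul, zero_mul]
  rw [lintegral_congr h1, lintegral_mul_const _ (measurable_Gw (measurable_ps hE)
    (measurable_one.indicator hA)), lint_Gw hE hA]

theorem cr_union_ge (hE : MeasurableSet E) {A B : Set (Fin d → ℝ)} (hA : MeasurableSet A)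
    (hB : MeasurableSet B) (h : Apart E A B) (f : volume (A ∪ B) ≠ ⊤) (k l : ℕ) :
    cr E A k * cr E B l ≤ cr E (A ∪ B) (k + l) := by
  have h3 := Gw_union volume (measurable_ps hE) (measurable_one.indicator hA)
    (measurable_one.indicator hB) (k + l)
  have e1 : (fun y : Fin d → ℝ => A.indicator (1 : (Fin d → ℝ) → ENNReal) y + B.indicator 1 y) =
      (A ∪ B).indicator 1 := by
    rw [Set.indicator_union_of_disjoint h.1]
  rw [e1, lint_Gw hE (hA.union hB)] at h3
  have h4 : (((k + l).choose k : ℕ) : ENNReal) *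
      (volume (Cf E (Fin k) A) * volume (Cf E (Fin l) B)) ≤ volume (Cf E (Fin (k + l)) (A ∪ B)) := by
    rw [h3]
    have h5 := single_le_sum (f := fun j => (((k + l).choose j : ℕ) : ENNReal) *
      JG volume (ps E) (Fin j) (Fin (k + l - j)) (A.indicator 1) (B.indicator 1))
      (s := range (k + l + 1)) (fun _ _ => zero_le) (mem_range.2 (show k < k + l + 1 by omega))
    refine le_trans (le_of_eq ?_) h5
    rw [Nat.add_sub_cancel_left, JG_apart hE hA hB h]
  have h5 := ENNReal.toReal_mono (volume_Cf_ne f (k + l)) h4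
  rw [ENNReal.toReal_mul, ENNReal.toReal_mul, ENNReal.toReal_natCast] at h5
  have h6 : (((k + l).choose k : ℕ) : ℝ) * k.factorial * l.factorial = (k + l).factorial := by
    have := Nat.choose_mul_factorial_mul_factorial (show k ≤ k + l by omega)
    rw [Nat.add_sub_cancel_left] at this
    exact_mod_cast this
  unfold cr
  have p1 : (0 : ℝ) < k.factorial := by positivity
  have p2 : (0 : ℝ) < l.factorial := by positivity
  have p3 : (0 : ℝ) < (k + l).factorial := by positivity
  rw [inv_mul_eq_div, inv_mul_eq_div, inv_mul_eq_div, div_mul_div_comm,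
    div_le_div_iff₀ (by positivity) p3, ← h6]
  calc (volume (Cf E (Fin k) A)).toReal * (volume (Cf E (Fin l) B)).toReal *
        ((((k + l).choose k : ℕ) : ℝ) * k.factorial * l.factorial)
      = ((((k + l).choose k : ℕ) : ℝ) * ((volume (Cf E (Fin k) A)).toReal *
        (volume (Cf E (Fin l) B)).toReal)) * (k.factorial * l.factorial) := by ring
    _ ≤ _ := by gcongr

theorem cr_prod_le (hE : MeasurableSet E) {κ : Type} [DecidableEq κ] (B : κ → Set (Fin d → ℝ))
    (hB : ∀ v w, v ≠ w → Apart E (B v) (B w)) (m : ∀ v, MeasurableSet (B v))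
    (f : ∀ v, volume (B v) ≠ ⊤) (y : ℕ → ℝ) (hy : ∀ v n, y n = cr E (B v) n) :
    ∀ (l : List ℕ) (s : Finset κ), s.card = l.length →
      (l.map y).prod ≤ cr E (⋃ v ∈ s, B v) l.sum := by
  intro l
  induction l with
  | nil =>
    intro s hs
    simp only [List.map_nil, List.prod_nil, List.sum_nil]
    rw [cr_zero]
  | cons c l ih =>
    intro s hs
    rw [List.length_cons] at hs
    obtain ⟨q, s', hq, rfl, hs'⟩ := card_eq_succ.1 hs
    rw [List.map_cons, List.prod_cons, List.sum_cons, hy q c, set_biUnion_insert]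
    have h1 := ih s' hs'
    have hfar : Apart E (B q) (⋃ v ∈ s', B v) := by
      constructor
      · rw [Set.disjoint_iUnion₂_right]
        exact fun v hv => (hB q v (fun h => hq (h ▸ hv))).1
      · intro x hx y hy
        simp only [Set.mem_iUnion] at hy
        obtain ⟨v, hv, hy⟩ := hy
        exact (hB q v (fun h => hq (h ▸ hv))).2 x hx y hy
    have hfin : volume (B q ∪ ⋃ v ∈ s', B v) ≠ ⊤ := by
      refine ne_top_of_le_ne_top ?_ (measure_union_le _ _)
      exact ENNReal.add_ne_top.2 ⟨f q,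
        (measure_biUnion_lt_top s'.finite_toSet fun v _ => (f v).lt_top).ne⟩
    have h2 := cr_union_ge hE (m q) (s'.measurableSet_biUnion fun v _ => m v) hfar hfin c l.sum
    refine le_trans ?_ h2
    exact mul_le_mul_of_nonneg_left h1 (cr_nonneg _ _)

theorem cr_shift (hE : MeasurableSet E) (v : Fin d → ℝ) {A : Set (Fin d → ℝ)}
    (hA : MeasurableSet A) (n : ℕ) : cr E ((fun y => y + v) ⁻¹' A) n = cr E A n := by
  unfold cr
  congr 2
  have hmp : MeasurePreserving (fun (q : Fin n → Fin d → ℝ) (i : Fin n) => q i + v)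
      volume volume :=
    measurePreserving_pi (fun _ => volume) (fun _ => volume) fun _ =>
      ⟨measurable_add_const v, map_add_right_eq_self volume v⟩
  rw [← hmp.measure_preimage (measurableSet_Cf hE hA).nullMeasurableSet]
  congr 1
  ext x
  simp [Cf]

/-! ### Insertion -/

/-- The free region. -/
def Fr (E : Set (Fin d → ℝ)) {ι : Type} (u : ι → Fin d → ℝ) : Set (Fin d → ℝ) :=
  {y | ∀ i, u i - y ∉ E ∧ y - u i ∉ E}

theorem measurable_free (hE : MeasurableSet E) {A : Set (Fin d → ℝ)} (hA : MeasurableSet A)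
    (N : ℕ) : Measurable fun u : Fin N → Fin d → ℝ => volume (A ∩ Fr E u) := by
  obtain ⟨T, hT⟩ : ∃ T : Set ((Fin N → Fin d → ℝ) × (Fin d → ℝ)),
      T = {q | q.2 ∈ A ∧ ∀ i, q.1 i - q.2 ∉ E ∧ q.2 - q.1 i ∉ E} := ⟨_, rfl⟩
  have mT : MeasurableSet T := by
    have e : T = (Prod.snd ⁻¹' A) ∩ ⋂ i : Fin N,
        ((fun q : (Fin N → Fin d → ℝ) × (Fin d → ℝ) => q.1 i - q.2) ⁻¹' Eᶜ ∩
          (fun q : (Fin N → Fin d → ℝ) × (Fin d → ℝ) => q.2 - q.1 i) ⁻¹' Eᶜ) := by
      rw [hT]
      ext q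
      simp
    rw [e]
    refine (measurable_snd hA).inter (MeasurableSet.iInter fun i => ?_)
    have h1 : Measurable fun q : (Fin N → Fin d → ℝ) × (Fin d → ℝ) => q.1 i :=
      (measurable_pi_apply i).comp measurable_fst
    exact ((h1.sub measurable_snd) hE.compl).inter ((measurable_snd.sub h1) hE.compl)
  have h3 := measurable_measure_prodMk_left (ν := (volume : Measure (Fin d → ℝ))) mT
  have e3 : (fun u : Fin N → Fin d → ℝ => volume (A ∩ Fr E u)) =
      fun u => volume (Prod.mk u ⁻¹' T) := by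
    funext u
    congr 1
    ext w
    rw [hT]
    rfl
  rw [e3]
  exact h3

theorem cons_mem_Cf {A : Set (Fin d → ℝ)} {N : ℕ} {u : Fin N → Fin d → ℝ} {y : Fin d → ℝ} :
    (Fin.cons y u : Fin (N + 1) → Fin d → ℝ) ∈ Cf E (Fin (N + 1)) A ↔
      u ∈ Cf E (Fin N) A ∧ y ∈ A ∩ Fr E u := by
  simp only [Cf, Set.mem_ofPred_eq, Set.mem_inter_iff, Fr]
  constructor
  · rintro ⟨h1, h2⟩
    refine ⟨⟨fun i => h1 i.succ, fun i j hij => ?_⟩, h1 0, fun i => ⟨?_, ?_⟩⟩
    · have := h2 i.succ j.succ fun h => hij (Fin.succ_injective _ h)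
      simpa using this
    · have := h2 i.succ 0 (Fin.succ_ne_zero i)
      simpa using this
    · have := h2 0 i.succ (Fin.succ_ne_zero i).symm
      simpa using this
  · rintro ⟨⟨h1, h2⟩, h3, h4⟩
    refine ⟨fun i => ?_, fun i j hij => ?_⟩
    · refine Fin.cases ?_ (fun i => ?_) i
      · simpa using h3
      · simpa using h1 i
    · induction i using Fin.cases with
      | zero =>
        induction j using Fin.cases with
        | zero => exact absurd rfl hij
        | succ j =>
          simp only [Fin.cons_zero, Fin.cons_succ]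
          exact (h4 j).2
      | succ i =>
        induction j using Fin.cases with
        | zero =>
          simp only [Fin.cons_zero, Fin.cons_succ]
          exact (h4 i).1
        | succ j =>
          simp only [Fin.cons_succ]
          exact h2 i j fun h => hij (by rw [h])

/-- Configurations with much free volume. -/
def SF (E A : Set (Fin d → ℝ)) (N : ℕ) (t : ENNReal) : Set (Fin N → Fin d → ℝ) :=
  {u | u ∈ Cf E (Fin N) A ∧ t < volume (A ∩ Fr E u)}

theorem measurableSet_SF (hE : MeasurableSet E) {A : Set (Fin d → ℝ)} (hA : MeasurableSet A)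
    (N : ℕ) (t : ENNReal) : MeasurableSet (SF E A N t) :=
  (measurableSet_Cf hE hA).inter (measurableSet_lt measurable_const (measurable_free hE hA N))

theorem vol_Cf_succ (hE : MeasurableSet E) {A : Set (Fin d → ℝ)} (hA : MeasurableSet A) (N : ℕ) :
    volume (Cf E (Fin (N + 1)) A) = ∫⁻ u in Cf E (Fin N) A, volume (A ∩ Fr E u) := by
  have h0 := StableGas.succ_apply (volume : Measure (Fin d → ℝ)) N
    (measurableSet_Cf (ι := Fin (N + 1)) hE hA)
  have e1 : volume (Cf E (Fin (N + 1)) A) = (Measure.pi fun _ : Fin (N + 1) =>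
    (volume : Measure (Fin d → ℝ))) (Cf E (Fin (N + 1)) A) := rfl
  rw [e1, h0, ← lintegral_indicator (measurableSet_Cf hE hA)]
  refine lintegral_congr fun u => ?_
  by_cases hu : u ∈ Cf E (Fin N) A
  · rw [Set.indicator_of_mem hu]
    congr 1
    ext y
    rw [Set.mem_ofPred_eq, cons_mem_Cf]
    exact ⟨fun h => h.2, fun h => ⟨hu, h⟩⟩
  · rw [Set.indicator_of_notMem hu]
    have : {y | (Fin.cons y u : Fin (N + 1) → Fin d → ℝ) ∈ Cf E (Fin (N + 1)) A} = ∅ := by
      rw [Set.eq_empty_iff_forall_notMem]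
      intro y hy
      exact hu (cons_mem_Cf.1 hy).1
    rw [this, measure_empty]

theorem vol_E_shift (hn : ∀ u ∈ E, -u ∈ E) (y : Fin d → ℝ) :
    volume {z | y - z ∈ E ∨ z - y ∈ E} = volume E := by
  have e : {z | y - z ∈ E ∨ z - y ∈ E} = (fun z => z - y) ⁻¹' E := by
    ext z
    rw [Set.mem_ofPred_eq, Set.mem_preimage]
    constructor
    · rintro (h | h)
      · have := hn _ h
        rwa [neg_sub] at this
      · exact h
    · exact fun h => Or.inr h
  rw [e]
  have h := measure_preimage_add_right (volume : Measure (Fin d → ℝ)) (-y) E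
  simp only [sub_eq_add_neg]
  exact h

theorem free_le (hn : ∀ u ∈ E, -u ∈ E) {A : Set (Fin d → ℝ)} {N : ℕ}
    (u : Fin N → Fin d → ℝ) (y : Fin d → ℝ) :
    volume (A ∩ Fr E u) ≤ volume (A ∩ Fr E (Fin.cons y u : Fin (N + 1) → Fin d → ℝ)) +
      volume E := by
  rw [← vol_E_shift hn y]
  refine le_trans (measure_mono ?_) (measure_union_le _ _)
  rintro z ⟨hz1, hz2⟩
  by_cases h : y - z ∈ E ∨ z - y ∈ E
  · exact Or.inr h
  · left
    push Not at h
    refine ⟨hz1, fun i => ?_⟩
    refine Fin.cases ?_ (fun i => ?_) i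
    · simp only [Fin.cons_zero]
      exact h
    · simp only [Fin.cons_succ]
      exact hz2 i

theorem pos_step (hE : MeasurableSet E) (hn : ∀ u ∈ E, -u ∈ E)
    {A : Set (Fin d → ℝ)} (hA : MeasurableSet A) {N : ℕ} {t : ENNReal} (ht : volume E ≤ t)
    (h : 0 < volume (SF E A N t)) : 0 < volume (SF E A (N + 1) (t - volume E)) := by
  have h0 := StableGas.succ_apply (volume : Measure (Fin d → ℝ)) N
    (measurableSet_SF hE hA (N + 1) (t - volume E))
  have e1 : volume (SF E A (N + 1) (t - volume E)) = (Measure.pi fun _ : Fin (N + 1) =>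
    (volume : Measure (Fin d → ℝ))) (SF E A (N + 1) (t - volume E)) := rfl
  rw [e1, h0]
  have h1 : ∫⁻ u in SF E A N t, volume (A ∩ Fr E u) ≤
      ∫⁻ u : Fin N → Fin d → ℝ, volume {y | (Fin.cons y u : Fin (N + 1) → Fin d → ℝ) ∈
        SF E A (N + 1) (t - volume E)} := by
    rw [← lintegral_indicator (measurableSet_SF hE hA _ _)]
    refine lintegral_mono fun u => ?_
    by_cases hu : u ∈ SF E A N t
    · rw [Set.indicator_of_mem hu]
      refine measure_mono fun y hy => ?_
      refine ⟨cons_mem_Cf.2 ⟨hu.1, hy⟩, ?_⟩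
      have h2 := free_le (A := A) hn u y
      have h3 := lt_of_lt_of_le hu.2 h2
      exact ENNReal.sub_lt_of_lt_add ht h3
    · rw [Set.indicator_of_notMem hu]
      exact bot_le
  refine lt_of_lt_of_le ?_ h1
  rw [setLIntegral_pos_iff (measurable_free hE hA N)]
  refine lt_of_lt_of_le h (measure_mono fun u hu => ⟨?_, hu⟩)
  exact (lt_of_le_of_lt bot_le hu.2).ne'

theorem pos_chain (hE : MeasurableSet E) (hn : ∀ u ∈ E, -u ∈ E) (hf : volume E ≠ ⊤)
    {A : Set (Fin d → ℝ)} (hA : MeasurableSet A) : ∀ (j N : ℕ),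
    0 < volume (SF E A N (j * volume E)) → 0 < volume (Cf E (Fin (N + j + 1)) A) := by
  intro j
  induction j with
  | zero =>
    intro N h
    rw [Nat.cast_zero, zero_mul] at h
    rw [add_zero, vol_Cf_succ hE hA]
    rw [setLIntegral_pos_iff (measurable_free hE hA N)]
    refine lt_of_lt_of_le h (measure_mono fun u hu => ⟨?_, hu.1⟩)
    exact hu.2.ne'
  | succ j ih =>
    intro N h
    have h1 := pos_step hE hn hA (t := ((j + 1 : ℕ) : ENNReal) * volume E) (by
      push_cast
      rw [add_mul, one_mul]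
      exact le_add_self) h
    have e : ((j + 1 : ℕ) : ENNReal) * volume E - volume E = j * volume E := by
      push_cast
      rw [add_mul, one_mul]
      exact ENNReal.add_sub_cancel_right hf
    rw [e] at h1
    have h2 := ih (N + 1) h1
    have e2 : N + 1 + j + 1 = N + (j + 1) + 1 := by omega
    rwa [e2] at h2

/-- Insertion bound. -/
theorem vol_insert_le (hE : MeasurableSet E) (hn : ∀ u ∈ E, -u ∈ E) (hf : volume E ≠ ⊤)
    {A : Set (Fin d → ℝ)} (hA : MeasurableSet A) {N K : ℕ}
    (hK : ∀ n, 0 < volume (Cf E (Fin n) A) → n ≤ K) (hNK : N ≤ K) :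
    volume (Cf E (Fin (N + 1)) A) ≤ ((K - N : ℕ) : ENNReal) * volume E *
      volume (Cf E (Fin N) A) := by
  have h0 : volume (SF E A N (((K - N : ℕ) : ENNReal) * volume E)) = 0 := by
    by_contra hcon
    have h1 := pos_chain hE hn hf hA (K - N) N (pos_iff_ne_zero.2 hcon)
    have h2 := hK _ h1
    omega
  rw [vol_Cf_succ hE hA]
  have h1 : ∀ᵐ u ∂((volume : Measure (Fin N → Fin d → ℝ)).restrict (Cf E (Fin N) A)),
      volume (A ∩ Fr E u) ≤ ((K - N : ℕ) : ENNReal) * volume E := by
    rw [ae_restrict_iff' (measurableSet_Cf hE hA)]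
    have h2 := measure_eq_zero_iff_ae_notMem.1 h0
    filter_upwards [h2] with u hu huC
    by_contra hcon
    push Not at hcon
    exact hu ⟨huC, hcon⟩
  refine (lintegral_mono_ae h1).trans ?_
  rw [lintegral_const, Measure.restrict_apply_univ]

/-- Fewer particles. -/
theorem cr_pos_of_succ (hE : MeasurableSet E) {A : Set (Fin d → ℝ)} (hA : MeasurableSet A)
    (hf : volume A ≠ ⊤) {N : ℕ} (h : 0 < cr E A (N + 1)) : 0 < cr E A N := by
  rw [cr_pos_iff hf] at h ⊢
  rw [vol_Cf_succ hE hA] at h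
  by_contra hcon
  push Not at hcon
  have h1 : volume (Cf E (Fin N) A) = 0 := le_antisymm hcon bot_le
  rw [Measure.restrict_eq_zero.2 h1] at h
  simp at h

theorem cr_pos_of_le (hE : MeasurableSet E) {A : Set (Fin d → ℝ)} (hA : MeasurableSet A)
    (hf : volume A ≠ ⊤) {M N : ℕ} (hMN : M ≤ N) (h : 0 < cr E A N) : 0 < cr E A M := by
  induction N, hMN using Nat.le_induction with
  | base => exact h
  | succ n hn ih => exact ih (cr_pos_of_succ hE hA hf h)

end Pool.Agent.Exg
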