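import Pool.Agent.Lib.MP_09cbbd_ex.CanA
import Pool.Agent.Lib.MP_09cbbd_mx.ThG

/-!
# The canonical partition functions of boxes for the exclusion gas
-/

set_option autoImplicit false

namespace Pool.Agent.Exg

open MeasureTheory Finset Filter Topology Pool.Agent.SquareWellGas Pool.Agent.ExGas
  Pool.Agent.Mix

open Pool.Agent.Mix.CanM (measurableSet_Box volume_Box volume_Box_ne Box_mono vol_toReal_le
  pow_div_le_exp)

variable {d : ℕ} {E : Set (Fin d → ℝ)} {a R : ℝ}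

/-- Superadditivity. -/
theorem can_super (P : Ex E a R) (hR : 0 < R) {ℓ : ℝ} (hℓ : R < ℓ) (L1 k L : ℕ)
    (l : List ℕ) (hL1 : 1 ≤ L1)
    (hkL : k * L1 ≤ L) (hl : l.length ≤ k ^ d) :
    (l.map fun N => cr E (Box d (L1 * ℓ - R)) N).prod ≤
      cr E (Box d (L * ℓ - R)) l.sum := by
  classical
  have hℓ0 : 0 < ℓ := by linarith
  obtain ⟨vv, hvv⟩ : ∃ vv : (Fin d → Fin k) → Fin d → ℝ, vv = fun u κ =>
    -(((u κ : ℕ) : ℝ) * (L1 * ℓ)) := ⟨_, rfl⟩
  obtain ⟨B, hB⟩ : ∃ B : (Fin d → Fin k) → Set (Fin d → ℝ), B = fun u =>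
    (fun x => x + vv u) ⁻¹' Box d (L1 * ℓ - R) := ⟨_, rfl⟩
  have hBmem : ∀ u x, x ∈ B u ↔ ∀ κ, ((u κ : ℕ) : ℝ) * (L1 * ℓ) ≤ x κ ∧
      x κ < ((u κ : ℕ) : ℝ) * (L1 * ℓ) + (L1 * ℓ - R) := by
    intro u x
    rw [hB, hvv]
    simp only [Box, Set.mem_preimage, Set.mem_ofPred_eq, Pi.add_apply, Set.mem_Ico]
    refine forall_congr' fun κ => ?_
    constructor <;> rintro ⟨h3, h4⟩ <;> constructor <;> linarith
  have h8 : (1 : ℝ) ≤ L1 := by exact_mod_cast hL1
  have hLl : 0 < (L1 : ℝ) * ℓ := by positivity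
  have main : ∀ u v : Fin d → Fin k, ∀ κ, u κ < v κ → ∀ x ∈ B u, ∀ y ∈ B v,
      R ≤ y κ - x κ := by
    intro u v κ huv x hx y hy
    rw [hBmem] at hx hy
    have h1 := (hx κ).2
    have h2 := (hy κ).1
    have h7 : ((u κ : ℕ) : ℝ) + 1 ≤ ((v κ : ℕ) : ℝ) := by
      have : (u κ : ℕ) + 1 ≤ (v κ : ℕ) := huv
      exact_mod_cast this
    have h9 : (((u κ : ℕ) : ℝ) + 1) * (L1 * ℓ) ≤ ((v κ : ℕ) : ℝ) * (L1 * ℓ) :=
      mul_le_mul_of_nonneg_right h7 hLl.le
    linarith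
  have hfar1 : ∀ u v, u ≠ v → ∀ x ∈ B u, ∀ y ∈ B v, x ≠ y ∧ x - y ∉ E := by
    intro u v huv x hx y hy
    obtain ⟨κ, hκ⟩ : ∃ κ, u κ ≠ v κ := by
      by_contra hcon
      push Not at hcon
      exact huv (funext hcon)
    rcases lt_or_gt_of_ne hκ with h1 | h1
    · have h2 := main u v κ h1 x hx y hy
      constructor
      · rintro rfl
        rw [sub_self] at h2
        linarith
      · intro h3
        have h4 := P.far _ h3 κ
        rw [Pi.sub_apply, abs_sub_comm] at h4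
        have := le_abs_self (y κ - x κ)
        linarith
    · have h2 := main v u κ h1 y hy x hx
      constructor
      · rintro rfl
        rw [sub_self] at h2
        linarith
      · intro h3
        have h4 := P.far _ h3 κ
        rw [Pi.sub_apply] at h4
        have := le_abs_self (x κ - y κ)
        linarith
  have hfar : ∀ u v, u ≠ v → Apart E (B u) (B v) := by
    intro u v huv
    constructor
    · rw [Set.disjoint_left]
      exact fun x hx hy => (hfar1 u v huv x hx x hy).1 rfl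
    · exact fun x hx y hy => ⟨(hfar1 u v huv x hx y hy).2, (hfar1 v u huv.symm y hy x hx).2⟩
  have hmeas : ∀ u, MeasurableSet (B u) := by
    intro u
    rw [hB]
    exact (measurable_add_const _) (measurableSet_Box _)
  have hvol : ∀ u, volume (B u) ≠ ⊤ := by
    intro u
    rw [hB]
    simp only
    rw [measure_preimage_add_right]
    exact volume_Box_ne _
  obtain ⟨s, hs1, hs2⟩ := exists_subset_card_eq (s := (univ : Finset (Fin d → Fin k)))
    (n := l.length) (by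
      rw [card_univ, Fintype.card_fun, Fintype.card_fin, Fintype.card_fin]; exact hl)
  have key := cr_prod_le P.meas B hfar hmeas hvol
    (fun N => cr E (Box d (L1 * ℓ - R)) N) (fun u n => by
      rw [hB]
      exact (cr_shift P.meas _ (measurableSet_Box _) _).symm) l s hs2
  refine key.trans (cr_mono ?_ (volume_Box_ne _) _)
  intro x hx
  simp only [Set.mem_iUnion] at hx
  obtain ⟨u, _, hx⟩ := hx
  rw [hBmem] at hx
  intro κ
  have h1 := hx κ
  have hu : ((u κ : ℕ) : ℝ) + 1 ≤ k := by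
    have : (u κ : ℕ) + 1 ≤ k := (u κ).2
    exact_mod_cast this
  have h9 : (k : ℝ) * L1 ≤ L := by exact_mod_cast hkL
  have h10 : (((u κ : ℕ) : ℝ) + 1) * (L1 * ℓ) ≤ k * (L1 * ℓ) :=
    mul_le_mul_of_nonneg_right hu hLl.le
  have h11 : (k : ℝ) * (L1 * ℓ) ≤ L * ℓ := by
    rw [← mul_assoc]
    exact mul_le_mul_of_nonneg_right h9 hℓ0.le
  have h12 : 0 ≤ ((u κ : ℕ) : ℝ) * (L1 * ℓ) := by positivity
  exact ⟨by linarith [h1.1], by linarith [h1.2]⟩

/-- The number of points of a configuration in a box. -/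
theorem card_box_le (P : Ex E a R) {s : ℝ} {N : ℕ}
    (h : (Cf E (Fin N) (Box d s)).Nonempty) : N ≤ ⌈a⁻¹ * s⌉₊ ^ d := by
  obtain ⟨x, hx⟩ := h
  have ha := P.ha
  obtain ⟨c, hc⟩ : ∃ c : ℝ, c = a⁻¹ := ⟨_, rfl⟩
  have hc0 : 0 < c := by rw [hc]; positivity
  rw [← hc]
  have hfl : ∀ i k, ⌊c * x i k⌋₊ < ⌈c * s⌉₊ := by
    intro i k
    have h1 := (hx.1 i) k
    have h2 : c * x i k < c * s := mul_lt_mul_of_pos_left h1.2 hc0
    have h3 : 0 ≤ c * x i k := mul_nonneg hc0.le h1.1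
    have h4 : ((⌊c * x i k⌋₊ : ℕ) : ℝ) < ⌈c * s⌉₊ :=
      lt_of_le_of_lt (Nat.floor_le h3) (lt_of_lt_of_le h2 (Nat.le_ceil _))
    exact_mod_cast h4
  have hinj : Function.Injective fun (i : Fin N) (k : Fin d) =>
      (⟨⌊c * x i k⌋₊, hfl i k⟩ : Fin ⌈c * s⌉₊) := by
    intro i j hij
    by_contra hne
    refine hx.2 i j hne (P.near _ fun k => ?_)
    have h3 : ⌊c * x i k⌋₊ = ⌊c * x j k⌋₊ := by
      have := congrFun hij k
      exact congrArg Fin.val this
    have h4 := Nat.floor_le (mul_nonneg hc0.le ((hx.1 i) k).1)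
    have h5 := Nat.lt_floor_add_one (c * x i k)
    have h6 := Nat.floor_le (mul_nonneg hc0.le ((hx.1 j) k).1)
    have h7 := Nat.lt_floor_add_one (c * x j k)
    rw [h3] at h4 h5
    have h8 : |c * (x i k - x j k)| < 1 := by
      rw [abs_lt]
      constructor <;> linarith
    rw [abs_mul, abs_of_pos hc0, hc, inv_mul_lt_iff₀ ha, mul_one] at h8
    exact h8
  have h := Fintype.card_le_of_injective _ hinj
  rw [Fintype.card_fin, Fintype.card_fun, Fintype.card_fin, Fintype.card_fin] at h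
  exact h

namespace Ex

variable (P : Ex E a R)

include P

theorem zero_mem : (0 : Fin d → ℝ) ∈ E := P.near 0 fun k => by
  rw [Pi.zero_apply, abs_zero]
  exact P.ha

theorem R_pos (hd : 1 ≤ d) : 0 < R := by
  have h := P.far 0 P.zero_mem ⟨0, hd⟩
  rwa [Pi.zero_apply, abs_zero] at h

omit P in
theorem Z_nonneg (s : ℝ) (N : ℕ) : 0 ≤ Z d E s N := by
  rw [Z_eq]
  exact cr_nonneg _ _

omit P in
theorem Z_mono {s t : ℝ} (h : s ≤ t) (N : ℕ) : Z d E s N ≤ Z d E t N := by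
  rw [Z_eq, Z_eq]
  exact cr_mono (Box_mono h) (volume_Box_ne _) N

omit P in
theorem Z_le (s : ℝ) (N : ℕ) : Z d E s N ≤ (volume (Box d s)).toReal ^ N / N.factorial := by
  rw [Z_eq]
  exact cr_le (volume_Box_ne _) N

omit P in
theorem Z_zero (s : ℝ) : Z d E s 0 = 1 := by
  rw [Z_eq]
  exact cr_zero _

theorem vol_E : volume E ≠ ⊤ := by
  have h : E ⊆ Set.pi Set.univ fun _ => Set.Icc (-R) R := fun u hu k _ =>
    ⟨(abs_lt.1 (P.far u hu k)).1.le, (abs_lt.1 (P.far u hu k)).2.le⟩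
  refine ne_top_of_le_ne_top ?_ (measure_mono h)
  rw [volume_pi_pi]
  exact (ENNReal.prod_lt_top fun k _ => measure_Icc_lt_top).ne

end Ex

/-- Partition function of the box of side `L ℓ - R`: it is superadditive. -/
noncomputable def Zt (d : ℕ) (E : Set (Fin d → ℝ)) (R ℓ : ℝ) (L N : ℕ) : ℝ :=
  Z d E (L * ℓ - R) N

variable {ℓ : ℝ}

/-- The logarithm of the partition function and the number of particles. -/
theorem log_Zt_le (hR : 0 < R) (hℓ : 0 < ℓ) (w : ℝ) (L N : ℕ)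
    (hZ : 0 < Zt d E R ℓ L N) :
    Real.log (Zt d E R ℓ L N) + w * N ≤ Real.exp w * (ℓ ^ d * (L : ℝ) ^ d) := by
  unfold Zt at hZ ⊢
  have h1 := Ex.Z_le (E := E) (d := d) (L * ℓ - R) N
  obtain ⟨V, hV⟩ : ∃ V : ℝ, V = (volume (Box d (L * ℓ - R))).toReal := ⟨_, rfl⟩
  have hV0 : 0 ≤ V := by rw [hV]; exact ENNReal.toReal_nonneg
  have hVl : V ≤ ℓ ^ d * (L : ℝ) ^ d := by
    rw [hV, ← mul_pow]
    exact vol_toReal_le (by linarith [mul_comm ℓ (L : ℝ)]) (by positivity)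
  rw [← hV] at h1
  have h2 : Z d E (L * ℓ - R) N * Real.exp (w * N) ≤
      Real.exp (Real.exp w * (ℓ ^ d * (L : ℝ) ^ d)) := by
    have h3 : Z d E (L * ℓ - R) N * Real.exp (w * N) ≤
        (V ^ N / N.factorial) * Real.exp (w * N) :=
      mul_le_mul_of_nonneg_right h1 (Real.exp_pos _).le
    refine h3.trans ?_
    have h4 : (V ^ N / N.factorial) * Real.exp (w * N) =
        ((Real.exp w * V) ^ N / N.factorial) := by
      rw [mul_pow, mul_comm w, Real.exp_nat_mul]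
      ring
    rw [h4]
    refine (pow_div_le_exp (by positivity) N).trans (Real.exp_le_exp.2 ?_)
    exact mul_le_mul_of_nonneg_left hVl (Real.exp_pos _).le
  have h5 := Real.log_le_log (by positivity) h2
  rwa [Real.log_mul hZ.ne' (Real.exp_pos _).ne', Real.log_exp, Real.log_exp] at h5

theorem exists_thG (hd : 1 ≤ d) (P : Ex E a R) (hℓ : R < ℓ) :
    ∃ U B : ℝ, ThG d (Zt d E R ℓ) U B := by
  have hR := P.R_pos hd
  have hℓ0 : 0 < ℓ := by linarith
  have ha := P.ha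
  refine ⟨ℓ ^ d, (a⁻¹ * ℓ + 1) ^ d, hd, ?_, ?_, ?_, ?_, ?_, ?_⟩
  · intro L1 k L l h1 h2 h3
    unfold Zt
    simp only [Z_eq]
    exact can_super P hR hℓ L1 k L l h1 h2 h3
  · intro L N M hMN
    unfold Zt
    rw [Z_eq, Z_eq]
    exact cr_pos_of_le P.meas (measurableSet_Box _) (volume_Box_ne _) hMN
  · intro L _
    unfold Zt
    rw [Ex.Z_zero]
  · intro L N
    exact Ex.Z_nonneg _ _
  · intro L N _ hZ
    have h1 := log_Zt_le hR hℓ0 0 L N hZ
    rwa [zero_mul, add_zero, Real.exp_zero, one_mul] at h1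
  · intro L N hL hp
    unfold Zt at hp
    rw [Z_eq, cr_pos_iff (volume_Box_ne _)] at hp
    have h1 : (Cf E (Fin N) (Box d (L * ℓ - R))).Nonempty := by
      by_contra hcon
      rw [Set.not_nonempty_iff_eq_empty] at hcon
      rw [hcon, measure_empty] at hp
      simp at hp
    have h2 := card_box_le P h1
    have hL' : (1 : ℝ) ≤ L := by exact_mod_cast hL
    obtain ⟨c, hc⟩ : ∃ c : ℝ, c = a⁻¹ := ⟨_, rfl⟩
    have hc0 : 0 < c := by rw [hc]; positivity
    rw [← hc] at h2 ⊢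
    have h3 : ((⌈c * (L * ℓ - R)⌉₊ : ℕ) : ℝ) ≤ (c * ℓ + 1) * L := by
      have h4 : 0 ≤ c * (L * ℓ - R) := by
        have : (1 : ℝ) * ℓ ≤ L * ℓ := mul_le_mul_of_nonneg_right hL' hℓ0.le
        refine mul_nonneg hc0.le (by linarith)
      have h5 := (Nat.ceil_lt_add_one h4).le
      refine h5.trans ?_
      have h6 : c * (L * ℓ - R) + 1 = c * ℓ * L + 1 - c * R := by ring
      rw [h6]
      have h7 : (c * ℓ + 1) * (L : ℝ) = c * ℓ * L + L := by ring
      rw [h7]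
      have h8 : 0 ≤ c * R := by positivity
      linarith
    have h4 : (N : ℝ) ≤ ((⌈c * (L * ℓ - R)⌉₊ : ℕ) : ℝ) ^ d := by exact_mod_cast h2
    rw [← mul_pow]
    exact h4.trans (pow_le_pow_left₀ (by positivity) h3 d)

/-- Adding a particle. -/
theorem insert_le (P : Ex E a R) :
    ∃ v : ℝ, 0 < v ∧ ∀ L N K' : ℕ, 1 ≤ L → (∀ n, 0 < Zt d E R ℓ L n → n ≤ K') → N ≤ K' →
      ((N : ℝ) + 1) * Zt d E R ℓ L (N + 1) ≤
        v * ((K' : ℝ) - N) * Zt d E R ℓ L N := by
  have hv0 : 0 < volume E := by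
    have h : Set.pi Set.univ (fun _ : Fin d => Set.Ioo (-a) a) ⊆ E := fun u hu =>
      P.near u fun k => abs_lt.2 (hu k (Set.mem_univ k))
    refine lt_of_lt_of_le ?_ (measure_mono h)
    rw [volume_pi_pi]
    refine pos_iff_ne_zero.2 (prod_ne_zero_iff.2 fun k _ => ?_)
    have ha := P.ha
    rw [Real.volume_Ioo, ne_eq, ENNReal.ofReal_eq_zero, not_le]
    linarith
  refine ⟨(volume E).toReal, ENNReal.toReal_pos hv0.ne' P.vol_E, fun L N K' hL hK' hN => ?_⟩
  unfold Zt at hK' ⊢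
  simp only [Z_eq] at hK' ⊢
  have hK'' : ∀ n, 0 < volume (Cf E (Fin n) (Box d (L * ℓ - R))) → n ≤ K' := by
    intro n hn
    exact hK' n ((cr_pos_iff (volume_Box_ne _) n).2 hn)
  have h := vol_insert_le P.meas P.neg P.vol_E (measurableSet_Box (d := d) (L * ℓ - R)) hK'' hN
  have hne : (((K' - N : ℕ) : ENNReal) * volume E) *
      volume (Cf E (Fin N) (Box d (L * ℓ - R))) ≠ ⊤ :=
    ENNReal.mul_ne_top (ENNReal.mul_ne_top (ENNReal.natCast_ne_top _) P.vol_E)
      (volume_Cf_ne (volume_Box_ne _) N)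
  have h1 := ENNReal.toReal_mono hne h
  rw [ENNReal.toReal_mul, ENNReal.toReal_mul, ENNReal.toReal_natCast, Nat.cast_sub hN] at h1
  unfold cr
  have h2 : (((N + 1).factorial : ℝ))⁻¹ = ((N : ℝ) + 1)⁻¹ * ((N.factorial : ℝ))⁻¹ := by
    rw [Nat.factorial_succ]
    push_cast
    rw [mul_inv]
  have h3 : (0 : ℝ) < (N : ℝ) + 1 := by positivity
  rw [h2]
  calc ((N : ℝ) + 1) * (((N : ℝ) + 1)⁻¹ * ((N.factorial : ℝ))⁻¹ *
        (volume (Cf E (Fin (N + 1)) (Box d (L * ℓ - R)))).toReal)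
      = ((N.factorial : ℝ))⁻¹ *
        (volume (Cf E (Fin (N + 1)) (Box d (L * ℓ - R)))).toReal := by
        field_simp
    _ ≤ ((N.factorial : ℝ))⁻¹ * ((((K' : ℝ) - N) * (volume E).toReal) *
        (volume (Cf E (Fin N) (Box d (L * ℓ - R)))).toReal) :=
        mul_le_mul_of_nonneg_left h1 (by positivity)
    _ = _ := by ring

end Pool.Agent.Exg
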