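import Pool.Agent.Lib.MP_09cbbd_ex.CanB
import Pool.Agent.Lib.MP_09cbbd_mx.KinkM

/-!
# From a kink of the pressure to the transition of the exclusion gas
-/

set_option autoImplicit false

namespace Pool.Agent.Exg

open MeasureTheory Finset Filter Topology Pool.Agent.StableGas Pool.Agent.SquareWellGas
  Pool.Agent.SquareWell Pool.Agent.ExGas Pool.Agent.Mix

variable {d : ℕ} {E : Set (Fin d → ℝ)} {a R ℓ : ℝ}

/-- The limit along real side lengths. -/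
theorem trans_of (hR : 0 < R) {U B : ℝ} (hℓ : R < ℓ)
    (T : ThG d (Zt d E R ℓ) U B) {ρ₁ ρ₂ c e m1 m2 : ℝ}
    (h1 : 0 < ρ₁) (h2 : ρ₁ < ρ₂) (h3 : ρ₂ < Th.rz d (Zt d E R ℓ)) (h31 : ρ₁ ≤ m1)
    (h32 : m2 ≤ ρ₂)
    (h4 : ∀ ρ ∈ Set.Ioo 0 (Th.rz d (Zt d E R ℓ)), Th.ff d (Zt d E R ℓ) ρ ≤ c * ρ + e ∧
        (Th.ff d (Zt d E R ℓ) ρ = c * ρ + e ↔ ρ ∈ Set.Icc ρ₁ ρ₂))
    (h5 : ¬ AnalyticAt ℝ (Th.ff d (Zt d E R ℓ)) ρ₁)
    (h6 : ¬ AnalyticAt ℝ (Th.ff d (Zt d E R ℓ)) ρ₂) :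
    Trans d (fun t N => Z d E (t * ℓ) N) (Th.rz d (Zt d E R ℓ)) m1 m2 := by
  have hℓ0 : 0 < ℓ := by linarith
  refine ⟨_, ρ₁, ρ₂, c, e, h1, h2, h3, h31, h32, ?_, h4, h5, h6⟩
  intro u N ρ hu hN
  obtain ⟨t, ht⟩ : ∃ t : ℕ → ℝ, t = fun j => u j - 1 + R / ℓ := ⟨_, rfl⟩
  have htu : Tendsto t atTop atTop := by
    rw [ht]
    exact tendsto_atTop_add_const_right _ _ (tendsto_atTop_add_const_right _ _ hu)
  have hratio : Tendsto (fun j => t j / u j) atTop (𝓝 1) := by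
    have g1 : Tendsto (fun j => 1 + (-1 + R / ℓ) / u j) atTop (𝓝 (1 + 0)) :=
      (hu.const_div_atTop _).const_add 1
    rw [add_zero] at g1
    refine g1.congr' ?_
    filter_upwards [hu.eventually_gt_atTop 0] with j hj
    rw [ht]
    field_simp
    ring
  have hratio' : Tendsto (fun j => (t j / u j) ^ d) atTop (𝓝 1) := by
    have := hratio.pow d
    rwa [one_pow] at this
  have hNt : Tendsto (fun j => (N j : ℝ) / t j ^ d) atTop (𝓝 ρ) := by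
    have g1 := hN.div hratio' one_ne_zero
    rw [div_one] at g1
    refine g1.congr' ?_
    filter_upwards [hu.eventually_gt_atTop 0, htu.eventually_gt_atTop 0] with j hj hj'
    simp only [Pi.div_apply]
    rw [div_pow]
    field_simp
  have hZr : ∀ j, Z d E (u j * ℓ) (N j) =
      (fun (t : ℝ) (N : ℕ) => Z d E ((t + 1) * ℓ - R) N) (t j) (N j) := by
    intro j
    simp only
    congr 1
    rw [ht]
    field_simp
    ring
  have hr1 : ∀ t : ℝ, 0 ≤ t → ∀ N, Zt d E R ℓ (⌊t⌋₊ + 1) N ≤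
      (fun (t : ℝ) (N : ℕ) => Z d E ((t + 1) * ℓ - R) N) t N := by
    intro t ht N
    refine Ex.Z_mono ?_ N
    have := Nat.floor_le ht
    push_cast
    have : ((⌊t⌋₊ : ℝ) + 1) * ℓ ≤ (t + 1) * ℓ := mul_le_mul_of_nonneg_right (by linarith) hℓ0.le
    linarith
  have hr2 : ∀ t : ℝ, 0 ≤ t → ∀ N,
      (fun (t : ℝ) (N : ℕ) => Z d E ((t + 1) * ℓ - R) N) t N ≤
        Zt d E R ℓ (⌊t⌋₊ + 2) N := by
    intro t _ N
    refine Ex.Z_mono ?_ N
    have := (Nat.lt_floor_add_one t).le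
    push_cast
    have : (t + 1) * ℓ ≤ ((⌊t⌋₊ : ℝ) + 2) * ℓ := mul_le_mul_of_nonneg_right (by linarith) hℓ0.le
    linarith
  constructor
  · rintro ⟨g0, g1⟩
    obtain ⟨g2, g3⟩ := T.seq hr1 hr2 htu hNt g0 g1
    refine ⟨?_, ?_⟩
    · filter_upwards [g2] with j hj
      rw [hZr]
      exact hj
    · have g4 := g3.mul hratio'
      rw [mul_one] at g4
      refine g4.congr' ?_
      filter_upwards [hu.eventually_gt_atTop 0, htu.eventually_gt_atTop 0] with j hj hj'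
      rw [hZr, div_pow]
      field_simp
  · intro g
    have g1 := T.seq_zero (fun t N => Ex.Z_nonneg _ N) hr2 htu hNt g
    filter_upwards [g1] with j hj
    rw [hZr]
    exact hj

/-- The pressure is positive. -/
theorem p_pos (hd : 1 ≤ d) (hR : 0 < R) (hℓ : R < ℓ) {w p : ℝ}
    (hpu : ∀ L N : ℕ, 1 ≤ L → 0 < Zt d E R ℓ L N →
      Real.log (Zt d E R ℓ L N) + w * N ≤ p * (L : ℝ) ^ d) : 0 < p := by
  have hℓ0 : 0 < ℓ := by linarith
  obtain ⟨n, hn⟩ := exists_nat_gt ((Real.exp (1 - w) + 1 + R) / ℓ)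
  rw [div_lt_iff₀ hℓ0] at hn
  have he := Real.exp_pos (1 - w)
  have hn0 : 1 ≤ n := by
    rcases Nat.eq_zero_or_pos n with h | h
    · rw [h] at hn
      simp at hn
      linarith
    · exact h
  have h1 : Real.exp (1 - w) ≤ Zt d E R ℓ n 1 := by
    unfold Zt
    rw [Z_eq]
    unfold cr
    have e : Cf E (Fin 1) (Box d ((n : ℝ) * ℓ - R)) =
        Set.pi Set.univ fun _ : Fin 1 => Box d ((n : ℝ) * ℓ - R) := by
      ext x
      simp only [Cf, Set.mem_ofPred_eq, Set.mem_pi, Set.mem_univ, true_imp_iff]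
      exact ⟨fun h => h.1, fun h => ⟨h, fun i j hij => absurd (Subsingleton.elim i j) hij⟩⟩
    rw [e, volume_pi_pi, Fin.prod_univ_one, CanM.volume_Box, ENNReal.toReal_pow,
      ENNReal.toReal_ofReal (by linarith)]
    have h3 : (1 : ℝ) ≤ n * ℓ - R := by linarith
    have h4 := le_self_pow₀ h3 (show d ≠ 0 by omega)
    simp only [Nat.factorial_one, Nat.cast_one, inv_one, one_mul]
    linarith
  have h2 := hpu n 1 hn0 (lt_of_lt_of_le he h1)
  have h3 := Real.log_le_log he h1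
  rw [Real.log_exp] at h3
  have h4 : (0 : ℝ) < (n : ℝ) ^ d := by
    have : (0 : ℝ) < n := by exact_mod_cast hn0
    positivity
  push_cast at h2
  by_contra hcon
  push Not at hcon
  have h5 := mul_nonpos_of_nonpos_of_nonneg hcon h4.le
  linarith

/-- Low chemical potentials. -/
theorem hlow_of (hd : 1 ≤ d) (hR : 0 < R) (hℓ : R < ℓ) {w p : ℝ}
    (hpu : ∀ L N : ℕ, 1 ≤ L → 0 < Zt d E R ℓ L N →
      Real.log (Zt d E R ℓ L N) + w * N ≤ p * (L : ℝ) ^ d) :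
    ∃ w' q : ℝ, q < p ∧ ∀ L N : ℕ, 1 ≤ L → 0 < Zt d E R ℓ L N →
      Real.log (Zt d E R ℓ L N) + w' * N ≤ q * (L : ℝ) ^ d := by
  have hp := p_pos hd hR hℓ hpu
  have hℓ0 : 0 < ℓ := by linarith
  have hV : 0 < ℓ ^ d := by positivity
  refine ⟨Real.log (p / 2 / ℓ ^ d), p / 2, by linarith, fun L N hL hZ => ?_⟩
  have h1 := log_Zt_le hR hℓ0 (Real.log (p / 2 / ℓ ^ d)) L N hZ
  rw [Real.exp_log (by positivity)] at h1
  refine h1.trans (le_of_eq ?_)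
  field_simp

/-- The pressure and the canonical partition functions. -/
theorem ensembles (hd : 1 ≤ d) (P : Ex E a R) {l0 : ℝ} {K0 : ℕ} (hK0pos : 1 ≤ K0)
    (hK : R < K0 * l0) {q : ℝ → ℝ}
    (hlimq : ∀ μ : ℝ, Tendsto (fun L : ℕ => Real.log (∑' n : ℕ, ex (μ * n) *
      ENNReal.ofReal (Z d E (L * l0) n)).toReal / (L : ℝ) ^ d) atTop (𝓝 (q μ))) :
    (∀ (μ : ℝ) (L N : ℕ), 1 ≤ L → 0 < Zt d E R (K0 * l0) L N →
      Real.log (Zt d E R (K0 * l0) L N) + μ * N ≤ (K0 : ℝ) ^ d * q μ * (L : ℝ) ^ d) ∧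
    ∀ (μ ε : ℝ), 0 < ε → ∃ L N : ℕ, 1 ≤ L ∧ 0 < Zt d E R (K0 * l0) L N ∧
      ((K0 : ℝ) ^ d * q μ - ε) * (L : ℝ) ^ d ≤ Real.log (Zt d E R (K0 * l0) L N) + μ * N := by
  classical
  have hR := P.R_pos hd
  have hK0' : (0 : ℝ) < K0 := by exact_mod_cast hK0pos
  obtain ⟨ℓ, hℓe⟩ : ∃ ℓ : ℝ, ℓ = K0 * l0 := ⟨_, rfl⟩
  rw [← hℓe] at hK ⊢
  have hℓ0 : 0 < ℓ := by linarith
  obtain ⟨p, hpe⟩ : ∃ p : ℝ → ℝ, p = fun μ => (K0 : ℝ) ^ d * q μ := ⟨_, rfl⟩
  have hpe' : ∀ μ, (K0 : ℝ) ^ d * q μ = p μ := fun μ => by rw [hpe]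
  simp only [hpe']
  have hlim : ∀ μ : ℝ, Tendsto (fun L : ℕ => Real.log (∑' n : ℕ, ex (μ * n) *
      ENNReal.ofReal (Z d E (L * ℓ) n)).toReal / (L : ℝ) ^ d) atTop (𝓝 (p μ)) := by
    intro μ
    have hk : Tendsto (fun L : ℕ => L * K0) atTop atTop :=
      tendsto_id.atTop_mul_const' (by omega)
    have h1 := ((hlimq μ).comp hk).const_mul ((K0 : ℝ) ^ d)
    rw [hpe]
    refine h1.congr fun L => ?_
    simp only [Function.comp]
    have h2 : (((L * K0 : ℕ) : ℝ)) * l0 = L * ℓ := by rw [hℓe]; push_cast; ring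
    rw [h2]
    push_cast
    rw [mul_pow]
    field_simp
  obtain ⟨U, B, T⟩ := exists_thG hd P hK
  -- elementary facts
  have hup : ∀ L n : ℕ, Z d E (L * ℓ) n ≤ Zt d E R ℓ (L + 1) n := by
    intro L n
    refine Ex.Z_mono ?_ n
    push_cast
    linarith
  have hlo : ∀ L n : ℕ, Zt d E R ℓ L n ≤ Z d E (L * ℓ) n := by
    intro L n
    exact Ex.Z_mono (by linarith) n
  have hB0 : 0 ≤ B := by
    have h1 := T.fin 1 0 le_rfl (lt_of_lt_of_le one_pos (T.zero 1 le_rfl))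
    simpa using h1
  have hZ0 : ∀ L n : ℕ, 0 ≤ Z d E (L * ℓ) n := fun L n => Ex.Z_nonneg _ n
  obtain ⟨Q, hQ⟩ : ∃ Q : ℕ → ℕ, Q = fun L : ℕ => ⌊B * ((L : ℝ) + 1) ^ d⌋₊ := ⟨_, rfl⟩
  have hzero : ∀ L n : ℕ, n ∉ Finset.range (Q L + 1) → Z d E (L * ℓ) n = 0 := by
    intro L n hn
    rw [Finset.mem_range, not_lt] at hn
    by_contra hcon
    have h1 : 0 < Zt d E R ℓ (L + 1) n :=
      lt_of_lt_of_le (lt_of_le_of_ne (hZ0 L n) (Ne.symm hcon)) (hup L n)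
    have h2 := T.fin (L + 1) n (by omega) h1
    push_cast at h2
    have h3 : n ≤ ⌊B * ((L : ℝ) + 1) ^ d⌋₊ := Nat.le_floor h2
    have h4 : Q L = ⌊B * ((L : ℝ) + 1) ^ d⌋₊ := by rw [hQ]
    omega
  -- the partition functions
  obtain ⟨S, hS⟩ : ∃ S : ℝ → ℕ → ℝ, S = fun (μ : ℝ) (L : ℕ) => ∑ n ∈ Finset.range (Q L + 1),
    Real.exp (μ * n) * Z d E (L * ℓ) n := ⟨_, rfl⟩
  have hSeq : ∀ (μ : ℝ) (L : ℕ), (∑' n : ℕ, ex (μ * n) *
      ENNReal.ofReal (Z d E (L * ℓ) n)).toReal = S μ L := by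
    intro μ L
    rw [tsum_eq_sum (s := Finset.range (Q L + 1)) (fun n hn => by
      rw [hzero L n hn, ENNReal.ofReal_zero, mul_zero]), ENNReal.toReal_sum (fun n _ =>
      ENNReal.mul_ne_top (ex_ne_top _) ENNReal.ofReal_ne_top), hS]
    refine Finset.sum_congr rfl fun n _ => ?_
    rw [ENNReal.toReal_mul, ex_toReal, ENNReal.toReal_ofReal (hZ0 L n)]
  have hlim' : ∀ μ : ℝ, Tendsto (fun L : ℕ => Real.log (S μ L) / (L : ℝ) ^ d) atTop
      (𝓝 (p μ)) := by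
    intro μ
    refine (hlim μ).congr fun L => ?_
    rw [hSeq]
  have hterm0 : ∀ (μ : ℝ) (L n : ℕ), 0 ≤ Real.exp (μ * n) * Z d E (L * ℓ) n :=
    fun μ L n => mul_nonneg (Real.exp_pos _).le (hZ0 L n)
  have hSterm : ∀ (μ : ℝ) (L n : ℕ), Real.exp (μ * n) * Z d E (L * ℓ) n ≤ S μ L := by
    intro μ L n
    rw [hS]
    by_cases hn : n ∈ Finset.range (Q L + 1)
    · exact Finset.single_le_sum
        (f := fun n : ℕ => Real.exp (μ * n) * Z d E (L * ℓ) n)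
        (fun n _ => hterm0 μ L n) hn
    · rw [hzero L n hn, mul_zero]
      exact Finset.sum_nonneg fun n _ => hterm0 μ L n
  have hSpos : ∀ μ L, 0 < S μ L := by
    intro μ L
    have h1 := hSterm μ L 0
    have h2 : 1 ≤ Z d E (L * ℓ) 0 := (Ex.Z_zero _).ge
    have h3 : Real.exp (μ * (0 : ℕ)) = 1 := by simp
    rw [h3, one_mul] at h1
    linarith
  have hSmax : ∀ (μ : ℝ) (L : ℕ), ∃ N' : ℕ, S μ L ≤ (B * ((L : ℝ) + 1) ^ d + 1) *
      (Real.exp (μ * N') * Z d E (L * ℓ) N') := by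
    intro μ L
    obtain ⟨N', _, hN'⟩ := Finset.exists_max_image (Finset.range (Q L + 1))
      (fun n : ℕ => Real.exp (μ * n) * Z d E (L * ℓ) n)
      ⟨0, Finset.mem_range.2 (Nat.succ_pos _)⟩
    refine ⟨N', ?_⟩
    have h1 := Finset.sum_le_card_nsmul (Finset.range (Q L + 1))
      (fun n : ℕ => Real.exp (μ * n) * Z d E (L * ℓ) n) _ hN'
    rw [Finset.card_range, nsmul_eq_mul] at h1
    rw [hS]
    refine h1.trans (mul_le_mul_of_nonneg_right ?_ (hterm0 μ L N'))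
    push_cast
    have h2 : (Q L : ℝ) ≤ B * ((L : ℝ) + 1) ^ d := by
      rw [hQ]
      exact Nat.floor_le (by positivity)
    linarith
  -- the upper bound
  have hpu : ∀ (μ : ℝ) (L N : ℕ), 1 ≤ L → 0 < Zt d E R ℓ L N →
      Real.log (Zt d E R ℓ L N) + μ * N ≤ p μ * (L : ℝ) ^ d := by
    intro μ L N hL h0
    have hL' : (0 : ℝ) < L := by exact_mod_cast hL
    have hLd : (0 : ℝ) < (L : ℝ) ^ d := by positivity
    rw [← div_le_iff₀ hLd]
    have hk : Tendsto (fun k : ℕ => k * L) atTop atTop :=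
      tendsto_id.atTop_mul_const' (by omega)
    refine ge_of_tendsto ((hlim' μ).comp hk) ?_
    filter_upwards [eventually_ge_atTop 1] with k hk1
    have hk' : (0 : ℝ) < k := by exact_mod_cast hk1
    simp only [Function.comp]
    have h4 := T.sup L k (k * L) (List.replicate (k ^ d) N) hL le_rfl
      (by rw [List.length_replicate])
    rw [List.map_replicate, List.prod_replicate, List.sum_replicate, smul_eq_mul] at h4
    have h5 := h4.trans (hlo (k * L) (k ^ d * N))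
    have h6 := hSterm μ (k * L) (k ^ d * N)
    have h7 : Real.exp (μ * ((k ^ d * N : ℕ) : ℝ)) * Zt d E R ℓ L N ^ k ^ d ≤ S μ (k * L) :=
      (mul_le_mul_of_nonneg_left h5 (Real.exp_pos _).le).trans h6
    have h8 := Real.log_le_log (by positivity) h7
    rw [Real.log_mul (Real.exp_pos _).ne' (pow_pos h0 _).ne', Real.log_exp,
      Real.log_pow] at h8
    rw [div_le_div_iff₀ hLd (by positivity)]
    push_cast at h8 ⊢
    have h9 : (Real.log (Zt d E R ℓ L N) + μ * N) * ((k : ℝ) * L) ^ d =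
        (μ * ((k : ℝ) ^ d * N) + (k : ℝ) ^ d * Real.log (Zt d E R ℓ L N)) * (L : ℝ) ^ d := by
      rw [mul_pow]; ring
    rw [h9]
    exact mul_le_mul_of_nonneg_right h8 hLd.le
  -- the lower bound
  have hpl : ∀ (μ ε : ℝ), 0 < ε → ∃ L N : ℕ, 1 ≤ L ∧ 0 < Zt d E R ℓ L N ∧
      (p μ - ε) * (L : ℝ) ^ d ≤ Real.log (Zt d E R ℓ L N) + μ * N := by
    intro μ ε hε
    have hsucc := Pool.Agent.ConfinedGas.tendsto_succ d
    have e1 : Tendsto (fun L : ℕ => (p μ - ε) * (((L : ℝ) + 1) ^ d / (L : ℝ) ^ d) +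
        Real.log ((B + 1) * 2 ^ d * (L : ℝ) ^ d + 1) / (L : ℝ) ^ d) atTop (𝓝 (p μ - ε)) := by
      have h1 := (hsucc.const_mul (p μ - ε)).add
        (log_affine_div hd ((B + 1) * 2 ^ d) 1 (by positivity) one_pos)
      rw [mul_one, add_zero] at h1
      exact h1
    have e2 := e1.eventually_lt (hlim' μ) (by linarith)
    obtain ⟨L, hL, hL1⟩ := (e2.and (eventually_ge_atTop 1)).exists
    have hL' : (1 : ℝ) ≤ L := by exact_mod_cast hL1
    have hL0 : (0 : ℝ) < L := by linarith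
    have hLd : (0 : ℝ) < (L : ℝ) ^ d := by positivity
    obtain ⟨N', hN'⟩ := hSmax μ L
    have h1 : S μ L ≤ ((B + 1) * 2 ^ d * (L : ℝ) ^ d + 1) *
        (Real.exp (μ * N') * Zt d E R ℓ (L + 1) N') := by
      refine hN'.trans ?_
      have h2 : B * ((L : ℝ) + 1) ^ d + 1 ≤ (B + 1) * 2 ^ d * (L : ℝ) ^ d + 1 := by
        have h3 : ((L : ℝ) + 1) ^ d ≤ (2 * L) ^ d :=
          pow_le_pow_left₀ (by positivity) (by linarith) d
        rw [mul_pow] at h3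
        have h4 : B * ((L : ℝ) + 1) ^ d ≤ (B + 1) * (2 ^ d * (L : ℝ) ^ d) :=
          mul_le_mul (by linarith) h3 (by positivity) (by linarith)
        linarith
      refine mul_le_mul h2 ?_ (hterm0 μ L N') (by positivity)
      exact mul_le_mul_of_nonneg_left (hup L N') (Real.exp_pos _).le
    have hpos : 0 < Zt d E R ℓ (L + 1) N' := by
      have h2 := lt_of_lt_of_le (hSpos μ L) h1
      have h3 := pos_of_mul_pos_right h2 (by positivity)
      exact pos_of_mul_pos_right h3 (Real.exp_pos _).le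
    refine ⟨L + 1, N', by omega, hpos, ?_⟩
    have h2 := Real.log_le_log (hSpos μ L) h1
    have hA : (0 : ℝ) < (B + 1) * 2 ^ d * (L : ℝ) ^ d + 1 := by positivity
    rw [Real.log_mul hA.ne' (mul_pos (Real.exp_pos _) hpos).ne',
      Real.log_mul (Real.exp_pos _).ne' hpos.ne', Real.log_exp] at h2
    have h3 : ((p μ - ε) * (((L : ℝ) + 1) ^ d / (L : ℝ) ^ d) +
        Real.log ((B + 1) * 2 ^ d * (L : ℝ) ^ d + 1) / (L : ℝ) ^ d) * (L : ℝ) ^ d ≤
        Real.log (S μ L) / (L : ℝ) ^ d * (L : ℝ) ^ d :=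
      mul_le_mul_of_nonneg_right hL.le hLd.le
    rw [div_mul_cancel₀ _ hLd.ne', add_mul, div_mul_cancel₀ _ hLd.ne', mul_assoc,
      div_mul_cancel₀ _ hLd.ne'] at h3
    push_cast
    linarith
  exact ⟨hpu, hpl⟩

/-- A kink of the pressure gives a transition. -/
theorem trans_of_kink (hd : 1 ≤ d) (P : Ex E a R) {l0 : ℝ} {K0 : ℕ} (hK0 : 1 ≤ K0)
    (hK : R < K0 * l0) {q : ℝ → ℝ}
    (hlimq : ∀ μ : ℝ, Tendsto (fun L : ℕ => Real.log (∑' n : ℕ, ex (μ * n) *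
      ENNReal.ofReal (Z d E (L * l0) n)).toReal / (L : ℝ) ^ d) atTop (𝓝 (q μ)))
    {w n1 n2 : ℝ} (hn : n1 < n2) (hw1 : ∀ h : ℝ, 0 < h → q w + h * n2 ≤ q (w + h))
    (hw2 : ∀ h : ℝ, 0 < h → q w - h * n1 ≤ q (w - h)) :
    Trans d (fun t N => Z d E t N) (Th.rz d (Zt d E R (K0 * l0)) / (K0 * l0) ^ d)
      (n1 / l0 ^ d) (n2 / l0 ^ d) := by
  have hK0' : (0 : ℝ) < K0 := by exact_mod_cast hK0
  have hKd : (0 : ℝ) < (K0 : ℝ) ^ d := by positivity
  have hR := P.R_pos hd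
  have hℓ0 : 0 < K0 * l0 := by linarith
  have hl0 : 0 < l0 := pos_of_mul_pos_right hℓ0 hK0'.le
  obtain ⟨U, B, T⟩ := exists_thG hd P hK
  obtain ⟨v, hv, hins⟩ := insert_le (d := d) (ℓ := K0 * l0) P
  obtain ⟨hpu, hpl⟩ := ensembles hd P hK0 hK hlimq
  obtain ⟨ρ₁, ρ₂, c, e, c1, c2, c3, c4, c5, c6, c7, c8⟩ := T.coexist hv hins
    (p := fun μ => (K0 : ℝ) ^ d * q μ) hpu hpl
    (w := w) (n1 := (K0 : ℝ) ^ d * n1) (n2 := (K0 : ℝ) ^ d * n2)
    (mul_lt_mul_of_pos_left hn hKd)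
    (fun h hh => by
      have := mul_le_mul_of_nonneg_left (hw1 h hh) hKd.le
      linarith)
    (fun h hh => by
      have := mul_le_mul_of_nonneg_left (hw2 h hh) hKd.le
      linarith)
    (hlow_of hd hR hK (hpu w))
  have h1 := Trans.scale hℓ0 (trans_of hR hK T c1 c2 c3 c7 c8 c4 c5 c6)
  have e1 : (K0 : ℝ) ^ d * n1 / (K0 * l0) ^ d = n1 / l0 ^ d := by
    rw [mul_pow]
    field_simp
  have e2 : (K0 : ℝ) ^ d * n2 / (K0 * l0) ^ d = n2 / l0 ^ d := by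
    rw [mul_pow]
    field_simp
  rw [e1, e2] at h1
  exact h1

end Pool.Agent.Exg
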