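import Pool.Agent.Lib.MP_09cbbd_ex.CanA
import Pool.Agent.Lib.MP_09cbbd_mx.ModG
import Pool.Agent.Lib.MP_09cbbd_mix.Defs

/-!
# The exclusion gas as a gas on the unit cells
-/

set_option autoImplicit false

namespace Pool.Agent.Exg

open MeasureTheory Finset Filter Topology Pool.Agent.StableGas Pool.Agent.SquareWellGas
  Pool.Agent.SquareWell Pool.Agent.ExGas Pool.Agent.SquareWell.ModA Pool.Agent.Mix Ct

variable {d : ℕ} {E : Set (Fin d → ℝ)} {a R : ℝ}

/-- Translation by the cell `i`. -/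
def tr (i : Zd d) (x : Fin d → ℝ) : Fin d → ℝ := fun k => x k + (i k : ℝ)

theorem mp_tr (i : Zd d) : MeasurePreserving (tr i) (volume : Measure (Fin d → ℝ)) volume :=
  measurePreserving_add_right (volume : Measure (Fin d → ℝ)) (fun k => (i k : ℝ))

theorem tr_zero (x : Fin d → ℝ) : tr (0 : Zd d) x = x := by
  funext k
  simp [tr]

theorem tr_sub (p i : Zd d) (x y : Fin d → ℝ) : tr p x - tr i y = x - tr (i - p) y := by
  funext k
  simp only [tr, Pi.sub_apply, Int.cast_sub]
  ring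

/-- The pair gas. -/
noncomputable def sys {E : Set (Fin d → ℝ)} (hE : MeasurableSet E) : Sys d (Fin d → ℝ) where
  m := volume
  ψ := ps E
  t := tr
  f0 := (Box d 1).indicator 1
  x0 := 0
  sf := inferInstance
  hψ := measurable_ps hE
  mp := mp_tr
  tt := fun i x => by
    funext k
    simp [tr]
  t0 := tr_zero
  ψt := fun p i x y => by
    unfold ps
    rw [tr_sub]
  hf := measurable_one.indicator (CanM.measurableSet_Box 1)

/-- Valid contents. -/
def Vx (E : Set (Fin d → ℝ)) (x : Ct (Fin d → ℝ)) : Prop :=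
  (∀ k, k < x.1 → x.2 k ∈ Box d 1) ∧ ∀ k, k < x.1 → ∀ l, l < x.1 → k ≠ l → x.2 k - x.2 l ∉ E

/-- Compatible contents. -/
def okc (E : Set (Fin d → ℝ)) (v : Zd d) (x y : Ct (Fin d → ℝ)) : Prop :=
  ∀ k, k < x.1 → ∀ l, l < y.1 → x.2 k - tr v (y.2 l) ∉ E

/-- The empty content. -/
def e0 : Ct (Fin d → ℝ) := (0, fun _ => 0)

theorem measurable_lt_fst (k : ℕ) {Y : Type} [MeasurableSpace Y] {f : Y → ℕ} (hf : Measurable f) :
    Measurable fun p : Y => k < f p := by
  rw [← measurableSet_setOfPred]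
  exact hf (MeasurableSet.of_discrete (s := {n | k < n}))

theorem measurable_at (k : ℕ) : Measurable fun x : Ct (Fin d → ℝ) => x.2 k :=
  (measurable_pi_apply k).comp measurable_snd

theorem measurable_notE (hE : MeasurableSet E) {Y : Type} [MeasurableSpace Y]
    {f g : Y → Fin d → ℝ} (hf : Measurable f) (hg : Measurable g) :
    Measurable fun p : Y => f p - g p ∉ E := by
  rw [← measurableSet_setOfPred]
  exact (hf.sub hg) hE.compl

theorem measurable_Vx (hE : MeasurableSet E) : Measurable fun x : Ct (Fin d → ℝ) => Vx E x := by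
  unfold Vx
  refine Measurable.and ?_ ?_
  · refine Measurable.forall fun k => (measurable_lt_fst k measurable_fst).imp ?_
    rw [← measurableSet_setOfPred]
    exact (measurable_at k) (CanM.measurableSet_Box 1)
  · refine Measurable.forall fun k => (measurable_lt_fst k measurable_fst).imp ?_
    refine Measurable.forall fun l => (measurable_lt_fst l measurable_fst).imp ?_
    exact measurable_const.imp (measurable_notE hE (measurable_at k) (measurable_at l))

theorem measurable_okc (hE : MeasurableSet E) (v : Zd d) :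
    Measurable fun p : Ct (Fin d → ℝ) × Ct (Fin d → ℝ) => okc E v p.1 p.2 := by
  unfold okc
  refine Measurable.forall fun k =>
    (measurable_lt_fst k (measurable_fst.comp measurable_fst)).imp ?_
  refine Measurable.forall fun l =>
    (measurable_lt_fst l (measurable_fst.comp measurable_snd)).imp ?_
  have h1 : Measurable fun p : Ct (Fin d → ℝ) × Ct (Fin d → ℝ) => p.1.2 k :=
    (measurable_at k).comp measurable_fst
  have h2 : Measurable fun p : Ct (Fin d → ℝ) × Ct (Fin d → ℝ) => tr v (p.2.2 l) :=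
    (mp_tr v).measurable.comp ((measurable_at l).comp measurable_snd)
  exact measurable_notE hE h1 h2

theorem okc_symm (hn : ∀ u ∈ E, -u ∈ E) {v : Zd d} {x y : Ct (Fin d → ℝ)} (h : okc E v x y) :
    okc E (-v) y x := by
  intro k hk l hl h1
  refine h l hl k hk ?_
  have h2 := hn _ h1
  have e : -(y.2 k - tr (-v) (x.2 l)) = x.2 l - tr v (y.2 k) := by
    funext j
    simp only [tr, Pi.sub_apply, Pi.neg_apply, Int.cast_neg]
    ring
  rwa [e] at h2

theorem okc_far (P : Ex E a R) {r : ℕ} (hr : R ≤ r) {v : Zd d} (hv : v ∉ Qr d r)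
    {x y : Ct (Fin d → ℝ)} (hx : Vx E x) (hy : Vx E y) : okc E v x y := by
  intro k hk l hl h
  rw [mem_Qr] at hv
  push Not at hv
  obtain ⟨j, hj⟩ := hv
  have h1 := P.far _ h j
  have h2 := hx.1 k hk j
  have h3 := hy.1 l hl j
  have h4 : (r : ℝ) + 1 ≤ |(v j : ℝ)| := by
    have : (r : ℤ) + 1 ≤ |v j| := hj
    exact_mod_cast this
  simp only [Set.mem_Ico] at h2 h3
  rw [Pi.sub_apply] at h1
  unfold tr at h1
  rw [abs_lt] at h1
  rcases abs_cases (v j : ℝ) with ⟨e, _⟩ | ⟨e, _⟩ <;> rw [e] at h4 <;> linarith [h1.1, h1.2]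

/-- Two compatible contents of the empty content. -/
theorem okc_e0_left (v : Zd d) (y : Ct (Fin d → ℝ)) : okc E v e0 y := fun k hk =>
  absurd hk (Nat.not_lt_zero k)

theorem okc_e0_right (v : Zd d) (x : Ct (Fin d → ℝ)) : okc E v x e0 := fun _ _ l hl =>
  absurd hl (Nat.not_lt_zero l)

theorem Vx_e0 : Vx E (e0 : Ct (Fin d → ℝ)) :=
  ⟨fun k hk => absurd hk (Nat.not_lt_zero k), fun k hk => absurd hk (Nat.not_lt_zero k)⟩

theorem pad_zero_eq (u : Fin 0 → Fin d → ℝ) : Ct.pad (0 : Fin d → ℝ) u = e0 := by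
  unfold Ct.pad e0
  ext k
  · rfl
  · simp

/-- Valid contents and configurations. -/
theorem Vx_pad_iff {n : ℕ} (u : Fin n → Fin d → ℝ) :
    Vx E (Ct.pad (0 : Fin d → ℝ) u) ↔ u ∈ Cf E (Fin n) (Box d 1) := by
  have e : ∀ (k : ℕ) (hk : k < n), (Ct.pad (0 : Fin d → ℝ) u).2 k = u ⟨k, hk⟩ := by
    intro k hk
    exact pad_snd _ u ⟨k, hk⟩
  constructor
  · rintro ⟨h1, h2⟩
    refine ⟨fun i => ?_, fun i j hij => ?_⟩
    · have := h1 i i.2
      rwa [e i i.2] at this
    · have := h2 i i.2 j j.2 fun h => hij (Fin.ext h)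
      rwa [e i i.2, e j j.2] at this
  · rintro ⟨h1, h2⟩
    refine ⟨fun k hk => ?_, fun k hk l hl hkl => ?_⟩
    · rw [e k hk]
      exact h1 _
    · rw [e k hk, e l hl]
      exact h2 _ _ fun h => hkl (congrArg Fin.val h)

section measure

variable (hE : MeasurableSet E)

theorem lint_pg {F : Ct (Fin d → ℝ) → ENNReal} (hF : Measurable F) :
    ∫⁻ x, F x ∂(sys hE).pg = ∑' n : ℕ, ((n.factorial : ENNReal))⁻¹ *
      ∫⁻ u in Cf E (Fin n) (Box d 1), F (Ct.pad (0 : Fin d → ℝ) u) := by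
  rw [(sys hE).lint_pg hF]
  refine tsum_congr fun n => ?_
  congr 1
  rw [← lintegral_indicator (measurableSet_Cf hE (CanM.measurableSet_Box 1))]
  change ∫⁻ u : Fin n → Fin d → ℝ, Gw (ps E) ((Box d 1).indicator 1) u *
    F (Ct.pad (0 : Fin d → ℝ) u) ∂(Measure.pi fun _ => volume) = _
  refine lintegral_congr fun u => ?_
  rw [Gw_eq]
  by_cases hu : u ∈ Cf E (Fin n) (Box d 1)
  · rw [Set.indicator_of_mem hu, Set.indicator_of_mem hu, Pi.one_apply, one_mul]
  · rw [Set.indicator_of_notMem hu, Set.indicator_of_notMem hu, zero_mul]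

theorem pg_apply {T : Set (Ct (Fin d → ℝ))} (hT : MeasurableSet T) : (sys hE).pg T =
    ∑' n : ℕ, ((n.factorial : ENNReal))⁻¹ *
      volume {u ∈ Cf E (Fin n) (Box d 1) | Ct.pad (0 : Fin d → ℝ) u ∈ T} := by
  rw [← lintegral_indicator_one hT, lint_pg hE (measurable_one.indicator hT)]
  refine tsum_congr fun n => ?_
  congr 1
  have hm : MeasurableSet {u : Fin n → Fin d → ℝ | Ct.pad (0 : Fin d → ℝ) u ∈ T} :=
    measurable_pad _ n hT
  have e : ∀ u : Fin n → Fin d → ℝ, T.indicator (1 : Ct (Fin d → ℝ) → ENNReal)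
      (Ct.pad (0 : Fin d → ℝ) u) =
      {u : Fin n → Fin d → ℝ | Ct.pad (0 : Fin d → ℝ) u ∈ T}.indicator 1 u := by
    intro u
    by_cases hu : Ct.pad (0 : Fin d → ℝ) u ∈ T
    · rw [Set.indicator_of_mem hu, Set.indicator_of_mem (show u ∈ {u : Fin n → Fin d → ℝ |
        Ct.pad (0 : Fin d → ℝ) u ∈ T} from hu)]
      rfl
    · rw [Set.indicator_of_notMem hu, Set.indicator_of_notMem (show u ∉ {u : Fin n → Fin d → ℝ |
        Ct.pad (0 : Fin d → ℝ) u ∈ T} from hu)]
  simp only [e]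
  rw [lintegral_indicator_one hm, Measure.restrict_apply hm, Set.inter_comm]
  rfl

/-- The contents are valid. -/
theorem ae_Vx : ∀ᵐ x ∂(sys hE).pg, Vx E x := by
  rw [ae_iff]
  have hT : MeasurableSet {x : Ct (Fin d → ℝ) | ¬ Vx E x} :=
    (measurableSet_setOfPred.2 (measurable_Vx hE)).compl
  rw [pg_apply hE hT, ENNReal.tsum_eq_zero]
  intro n
  have e : {u ∈ Cf E (Fin n) (Box d 1) | Ct.pad (0 : Fin d → ℝ) u ∈
      {x : Ct (Fin d → ℝ) | ¬ Vx E x}} = ∅ := by
    rw [Set.eq_empty_iff_forall_notMem]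
    rintro u ⟨h1, h2⟩
    exact h2 ((Vx_pad_iff u).2 h1)
  rw [e, measure_empty, mul_zero]

/-- Sets that contain the empty content only. -/
theorem pg_one {T : Set (Ct (Fin d → ℝ))} (hT : MeasurableSet T) (h0 : e0 ∈ T)
    (h1 : ∀ x ∈ T, Vx E x → x.1 = 0) : (sys hE).pg T = 1 := by
  rw [pg_apply hE hT, tsum_eq_single 0]
  · have e : {u ∈ Cf E (Fin 0) (Box d 1) | Ct.pad (0 : Fin d → ℝ) u ∈ T} = Set.univ := by
      ext u
      simp only [Set.mem_univ, iff_true, Set.mem_ofPred_eq]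
      refine ⟨⟨fun i => i.elim0, fun i => i.elim0⟩, ?_⟩
      rw [pad_zero_eq]
      exact h0
    have e1 : (Set.univ : Set (Fin 0 → Fin d → ℝ)) = Set.pi Set.univ fun _ : Fin 0 => Box d 1 := by
      ext x
      simp only [Set.mem_univ, Set.mem_pi, true_iff]
      exact fun i => i.elim0
    rw [e, e1, volume_pi_pi]
    simp
  · intro n hn
    have e : {u ∈ Cf E (Fin n) (Box d 1) | Ct.pad (0 : Fin d → ℝ) u ∈ T} = ∅ := by
      rw [Set.eq_empty_iff_forall_notMem]
      rintro u ⟨h3, h2⟩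
      exact hn (h1 _ h2 ((Vx_pad_iff u).2 h3))
    rw [e, measure_empty, mul_zero]

theorem pg_e0 : (sys hE).pg {e0} = 1 := by
  refine pg_one hE (measurableSet_singleton _) (Set.mem_singleton _) ?_
  intro x hx _
  rw [Set.mem_singleton_iff] at hx
  rw [hx]
  rfl

/-- Upper bound of integrals with weights. -/
theorem lint_pg_le (μ : ℝ) : ∫⁻ x, ex (μ * x.1) ∂(sys hE).pg ≤ ex (Real.exp μ) := by
  have hm : Measurable fun x : Ct (Fin d → ℝ) => ex (μ * x.1) := by
    have h1 : Measurable fun n : ℕ => ex (μ * n) := measurable_of_countable _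
    exact h1.comp measurable_fst
  rw [lint_pg hE hm]
  have hV := CanM.volume_Box (d := d) 1
  rw [ENNReal.ofReal_one, one_pow] at hV
  have e1 : Real.exp μ = (ENNReal.ofReal (Real.exp μ)).toReal :=
    (ENNReal.toReal_ofReal (Real.exp_pos μ).le).symm
  rw [e1, ← CanM.tsum_exp ENNReal.ofReal_ne_top]
  refine ENNReal.tsum_le_tsum fun n => ?_
  have h2 : ∫⁻ u in Cf E (Fin n) (Box d 1), ex (μ * ((Ct.pad (0 : Fin d → ℝ) u).1 : ℝ)) =
      ex (μ * n) * volume (Cf E (Fin n) (Box d 1)) := by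
    rw [← setLIntegral_const]
    rfl
  have h3 := volume_Cf_le (E := E) n (Box d 1)
  rw [hV, one_pow] at h3
  rw [h2]
  have h4 : ex (μ * n) = ENNReal.ofReal (Real.exp μ) ^ n := by
    rw [mul_comm, ← ex_pow]
    rfl
  rw [h4]
  calc ((n.factorial : ENNReal))⁻¹ * (ENNReal.ofReal (Real.exp μ) ^ n *
        volume (Cf E (Fin n) (Box d 1)))
      ≤ ((n.factorial : ENNReal))⁻¹ * (ENNReal.ofReal (Real.exp μ) ^ n * 1) :=
        mul_le_mul' le_rfl (mul_le_mul' le_rfl h3)
    _ = _ := by rw [mul_one, mul_comm]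

theorem pg_univ_ne_top : (sys hE).pg Set.univ ≠ ⊤ := by
  have h := lint_pg_le hE 0
  simp only [zero_mul] at h
  have h1 : ex 0 = 1 := by simp [ex]
  rw [h1, lintegral_one] at h
  exact ne_top_of_le_ne_top (ex_ne_top _) h

end measure

/-! ### The link -/

/-- Compatible contents of the cells of `A`. -/
def Comp (E : Set (Fin d → ℝ)) (A : Finset (Zd d)) (ω : Zd d → Ct (Fin d → ℝ)) : Prop :=
  ∀ i ∈ A, ∀ j ∈ A, i ≠ j → okc E (j - i) (ω i) (ω j)

theorem mem_cell (i : Zd d) (x : Fin d → ℝ) :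
    tr (-i) x ∈ Box d 1 ↔ ∀ k, i k = ⌊x k⌋ := by
  unfold Box tr
  simp only [Set.mem_ofPred_eq, Set.mem_Ico, Pi.neg_apply, Int.cast_neg]
  refine forall_congr' fun k => ?_
  rw [eq_comm, Int.floor_eq_iff]
  constructor
  · rintro ⟨h1, h2⟩
    constructor <;> linarith
  · rintro ⟨h1, h2⟩
    constructor <;> linarith

theorem cells_box (hE : MeasurableSet E) (μ : ℝ) (L : ℕ) :
    (fun x : Fin d → ℝ => ∑ i ∈ bx d L, ex μ * (sys hE).cI i x) =
      fun x => ex μ * (Box d L).indicator 1 x := by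
  funext x
  have h1 : ∀ i : Zd d, (sys hE).cI i x = if i = (fun k => ⌊x k⌋) then 1 else 0 := by
    intro i
    change (Box d 1).indicator (1 : (Fin d → ℝ) → ENNReal) (tr (-i) x) = _
    by_cases h : i = fun k => ⌊x k⌋
    · rw [if_pos h, Set.indicator_of_mem]
      · rfl
      · exact (mem_cell i x).2 fun k => congrFun h k
    · rw [if_neg h, Set.indicator_of_notMem]
      exact fun h' => h (funext ((mem_cell i x).1 h'))
  have h2 : (fun k => ⌊x k⌋) ∈ bx d L ↔ x ∈ Box d L := by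
    unfold bx Box
    simp only [Fintype.mem_piFinset, Set.mem_ofPred_eq, Finset.mem_Ico, Set.mem_Ico]
    refine forall_congr' fun k => ?_
    rw [Int.floor_lt, Int.floor_nonneg]
    rfl
  simp only [h1, mul_ite, mul_one, mul_zero]
  rw [Finset.sum_ite_eq']
  by_cases h3 : x ∈ Box d L
  · rw [if_pos (h2.2 h3), Set.indicator_of_mem h3, Pi.one_apply, mul_one]
  · rw [if_neg (fun h => h3 (h2.1 h)), Set.indicator_of_notMem h3, mul_zero]

theorem g_eq (hE : MeasurableSet E) (v : Zd d) (x z : Ct (Fin d → ℝ)) : (sys hE).g v x z =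
    open Classical in if okc E v x z then 1 else 0 := by
  classical
  unfold Sys.g Ct.cp
  split_ifs with h
  · refine prod_eq_one fun k hk => prod_eq_one fun l hl => ?_
    rw [mem_range] at hk hl
    exact ps_one (h k hk l hl)
  · unfold okc at h
    push Not at h
    obtain ⟨k, hk, l, hl, h1⟩ := h
    exact prod_eq_zero (mem_range.2 hk) (prod_eq_zero (mem_range.2 hl) (ps_zero h1))

/-- The weights agree. -/
theorem w_eq (hE : MeasurableSet E) (μ : ℝ) (A : Finset (Zd d)) (ω : Zd d → Ct (Fin d → ℝ)) :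
    (sys hE).WL (fun _ => ex μ) A ω = open Classical in
      (∏ i ∈ A, ex (μ * (ω i).1)) * if Comp E A ω then 1 else 0 := by
  classical
  unfold Sys.WL
  congr 1
  · refine prod_congr rfl fun i _ => ?_
    unfold Ct.cp
    rw [prod_const, card_range, ex_pow, mul_comm]
  · by_cases h : Comp E A ω
    · rw [if_pos h]
      refine prod_eq_one fun i hi => prod_eq_one fun j hj => ?_
      rw [mem_erase] at hj
      rw [g_eq, if_pos (h i hi j hj.2 (Ne.symm hj.1))]
    · rw [if_neg h]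
      unfold Comp at h
      push Not at h
      obtain ⟨i, hi, j, hj, hij, h1⟩ := h
      refine prod_eq_zero hi (prod_eq_zero (mem_erase.2 ⟨Ne.symm hij, hj⟩) ?_)
      rw [g_eq, if_neg h1]

/-- The partition function of the exclusion gas as a partition function of the gas on cells. -/
theorem link (hE : MeasurableSet E) (μ : ℝ) (L : ℕ) (ω0 : Zd d → Ct (Fin d → ℝ)) :
    ∑' n : ℕ, ex (μ * n) * ENNReal.ofReal (Z d E L n) =
      lmarginal (fun _ : Zd d => (sys hE).pg) (bx d L) (fun ω => open Classical in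
        (∏ i ∈ bx d L, ex (μ * (ω i).1)) * if Comp E (bx d L) ω then 1 else 0) ω0 := by
  classical
  have hfin : IsFiniteMeasure (sys hE).pg := ⟨(pg_univ_ne_top hE).lt_top⟩
  have h1 := (sys hE).linkJ (bx d L) (fun _ => ex μ) measurable_const ω0
  have e1 : (sys hE).WL (fun _ => ex μ) (bx d L) = fun ω =>
      (∏ i ∈ bx d L, ex (μ * (ω i).1)) * if Comp E (bx d L) ω then 1 else 0 :=
    funext fun ω => w_eq hE μ (bx d L) ω
  rw [e1] at h1
  rw [← h1, cells_box hE μ L]
  unfold Xg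
  refine tsum_congr fun n => ?_
  have h2 : ∀ x : Fin n → Fin d → ℝ, Gw (sys hE).ψ (fun x => ex μ * (Box d L).indicator 1 x) x =
      ex (μ * n) * Gw (ps E) ((Box d L).indicator 1) x := by
    intro x
    change Gw (ps E) (fun x => ex μ * (Box d L).indicator 1 x) x = _
    rw [Sys.Gw_mul (ps E) (fun _ => ex μ) ((Box d (L : ℝ)).indicator 1) x, prod_const, card_univ,
      Fintype.card_fin, ex_pow, mul_comm μ]
  rw [lintegral_congr h2]
  change _ = ((n.factorial : ENNReal))⁻¹ * ∫⁻ x : Fin n → Fin d → ℝ, ex (μ * n) *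
    Gw (ps E) ((Box d (L : ℝ)).indicator 1) x ∂(Measure.pi fun _ => volume)
  rw [lintegral_const_mul _ (measurable_Gw (measurable_ps hE)
    (measurable_one.indicator (CanM.measurableSet_Box _))),
    lint_Gw hE (CanM.measurableSet_Box _), Z_eq]
  unfold cr
  rw [ENNReal.ofReal_mul (by positivity), ENNReal.ofReal_inv_of_pos (by positivity),
    ENNReal.ofReal_natCast, ENNReal.ofReal_toReal (volume_Cf_ne (CanM.volume_Box_ne _) n)]
  ring

end Pool.Agent.Exg
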