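import Pool.Agent.Lib.MP_09cbbd_ex.Ens

/-!
# Change of scale of the exclusion set
-/

set_option autoImplicit false

namespace Pool.Agent.Exg

open MeasureTheory Finset Filter Topology Pointwise Pool.Agent.SquareWellGas Pool.Agent.ExGas
  Pool.Agent.Mix

variable {d : ℕ}

/-- The transition, in the form of `Mix.Trans`. -/
theorem transition_of_trans {E : Set (Fin d → ℝ)} {ρ₀ m1 m2 : ℝ}
    (h : Trans d (fun t N => Z d E t N) ρ₀ m1 m2) : Transition d E := by
  obtain ⟨f, ρ₁, ρ₂, c, e, h1, h2, h3, -, -, h4, h5, h6, h7⟩ := h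
  exact ⟨f, ρ₀, ρ₁, ρ₂, c, e, h1, h2, h3, h4, h5, h6, h7⟩

theorem trans_of_transition {E : Set (Fin d → ℝ)} (h : Transition d E) :
    ∃ ρ₀ m1 m2 : ℝ, Trans d (fun t N => Z d E t N) ρ₀ m1 m2 := by
  obtain ⟨f, ρ₀, ρ₁, ρ₂, c, e, h1, h2, h3, h4, h5, h6, h7⟩ := h
  exact ⟨ρ₀, ρ₁, ρ₂, f, ρ₁, ρ₂, c, e, h1, h2, h3, le_rfl, le_rfl, h4, h5, h6, h7⟩

/-- A change of the activity. -/
theorem trans_mul {Y : ℝ → ℕ → ℝ} {ρ₀ m1 m2 c : ℝ} (hc : 0 < c) (h : Trans d Y ρ₀ m1 m2) :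
    Trans d (fun t N => c ^ N * Y t N) ρ₀ m1 m2 := by
  obtain ⟨f, ρ₁, ρ₂, s, e, h1, h2, h3, h31, h32, h4, h5, h6, h7⟩ := h
  have hana : ∀ ρ, ¬ AnalyticAt ℝ f ρ → ¬ AnalyticAt ℝ (fun ρ => ρ * Real.log c + f ρ) ρ := by
    intro ρ hρ hcon
    apply hρ
    have g1 : AnalyticAt ℝ (fun x : ℝ => x * Real.log c) ρ := analyticAt_id.mul analyticAt_const
    have g2 := hcon.sub g1
    refine g2.congr (Eventually.of_forall fun x => ?_)
    simp only [Pi.sub_apply]
    ring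
  refine ⟨fun ρ => ρ * Real.log c + f ρ, ρ₁, ρ₂, s + Real.log c, e, h1, h2, h3, h31, h32, ?_, ?_,
    hana _ h6, hana _ h7⟩
  · intro ℓ N ρ hℓ hN
    obtain ⟨g1, g2⟩ := h4 ℓ N ρ hℓ hN
    refine ⟨fun hρ => ?_, fun hρ => ?_⟩
    · obtain ⟨g3, g4⟩ := g1 hρ
      refine ⟨?_, ?_⟩
      · filter_upwards [g3] with j hj
        positivity
      · have g5 := (hN.mul_const (Real.log c)).add g4
        refine g5.congr' ?_
        filter_upwards [g3] with j hj
        rw [Real.log_mul (by positivity) hj.ne', Real.log_pow, add_div]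
        congr 1
        ring
    · filter_upwards [g2 hρ] with j hj
      rw [hj, mul_zero]
  · intro ρ hρ
    obtain ⟨g1, g2⟩ := h5 ρ hρ
    have e1 : (s + Real.log c) * ρ + e = ρ * Real.log c + (s * ρ + e) := by ring
    rw [e1, ← g2]
    exact ⟨by linarith, by rw [add_right_inj]⟩

/-- The scaled exclusion set. -/
def scl (s : ℝ) (E : Set (Fin d → ℝ)) : Set (Fin d → ℝ) := {u | s⁻¹ • u ∈ E}

theorem Z_scl {s : ℝ} (hs : 0 < s) (E : Set (Fin d → ℝ)) (t : ℝ) (N : ℕ) :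
    Z d (scl s E) (t * s) N = (s ^ d) ^ N * Z d E t N := by
  unfold Z
  obtain ⟨A, hA⟩ : ∃ A : Set (Fin N → Fin d → ℝ), A = {x | (∀ i, x i ∈ Box d t) ∧
    ∀ i j, i ≠ j → x i - x j ∉ E} := ⟨_, rfl⟩
  obtain ⟨B, hB⟩ : ∃ B : Set (Fin N → Fin d → ℝ), B = {x | (∀ i, x i ∈ Box d (t * s)) ∧
    ∀ i j, i ≠ j → x i - x j ∉ scl s E} := ⟨_, rfl⟩
  rw [← hA, ← hB]
  have e : B = s • A := by
    ext x
    rw [Set.mem_smul_set_iff_inv_smul_mem₀ hs.ne', hA, hB]
    simp only [Set.mem_ofPred_eq, Pi.smul_apply, scl, ← smul_sub]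
    refine and_congr (forall_congr' fun i => ?_) Iff.rfl
    unfold Box
    simp only [Set.mem_ofPred_eq, Set.mem_Ico, Pi.smul_apply, smul_eq_mul]
    refine forall_congr' fun k => and_congr ?_ ?_
    · constructor
      · intro h
        positivity
      · intro h
        have := mul_nonneg hs.le h
        rwa [mul_inv_cancel_left₀ hs.ne'] at this
    · rw [inv_mul_lt_iff₀ hs, mul_comm]
  have h1 : volume.real (s • A) = s ^ (N * d) * volume.real A := by
    unfold Measure.real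
    rw [Measure.addHaar_smul, ENNReal.toReal_mul]
    congr 1
    rw [ENNReal.toReal_ofReal (abs_nonneg _), abs_of_pos (by positivity)]
    congr 1
    rw [Module.finrank_pi_fintype]
    simp
  rw [e, h1, ← pow_mul, mul_comm N d]
  ring

/-- The transition does not depend on the scale. -/
theorem transition_scl {s : ℝ} (hs : 0 < s) {E : Set (Fin d → ℝ)} (h : Transition d E) :
    Transition d (scl s E) := by
  obtain ⟨ρ₀, m1, m2, h1⟩ := trans_of_transition h
  have h2 := trans_mul (c := s ^ d) (by positivity) h1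
  have e : (fun (t : ℝ) (N : ℕ) => (s ^ d) ^ N * Z d E t N) =
      fun t N => (fun t N => Z d (scl s E) t N) (t * s) N := by
    funext t N
    exact (Z_scl hs E t N).symm
  rw [e] at h2
  exact transition_of_trans (Trans.scale hs h2)

end Pool.Agent.Exg
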